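import Mathlib

/-!
# Rows bm:* (MP_fb2c2a_nt, parts (b), (c)): Jacobi functions, isogenies, heights

Fix `A, B` and the power series `y = √(1+AX+BX²)`.  (Think of `X = s(v)²`, `s(v) = v + ...` with
`(s')² = 1 + A s² + B s⁴`, `y = s'`.)  `Ml A' B' y α g u` says that `s(v) g` is the function `s_{A',B'}(α v)` and
`u` its derivative divided by `α`.  These pairs can be added (`MA`), are unique (`MU`), and can be composed with
explicit isogenies (`MO`, `M2`).  `Ht ψ d`: the power series `ψ` is a rational function of degree `d`.  The degree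
of `ψ = X g²` is a quadratic form (parallelogram law `PL`).

RULES.  Every row is a `Prop` below; please prove `theorem Pool.Agent.helper60.DB.<ROW> (h : <OTHER>_stmt) ... :
<ROW>_stmt` in `Pool/Agent/<seat>/DB/<ROW>.lean` (import this file; only the rows named in the docstring may be
hypotheses, in this order), land it, lock note DONE, one line to helper60.  No `convert`/`congr!`/`native_decide`,
no double quotes.  Auxiliary lemmas: names beginning with the row name.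
-/

namespace Pool.Agent.helper60.DB

open Polynomial

/-! ### objects -/

section
variable {R : Type*} [CommRing R]

/-- the derivation `2 X d/dX` -/
noncomputable def EE (f : PowerSeries R) : PowerSeries R :=
  2 * PowerSeries.X * PowerSeries.derivative R f

/-- `y = √(1+AX+BX²)` -/
structure Yy (A B : R) (y : PowerSeries R) : Prop where
  sq : y ^ 2 = 1 + PowerSeries.C A * PowerSeries.X + PowerSeries.C B * PowerSeries.X ^ 2
  one : PowerSeries.constantCoeff y = 1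

/-- `√X g` is the multiplication by `α` into the curve `(A', B')`, `u` its second coordinate -/
structure Ml (A' B' : R) (y : PowerSeries R) (α : R) (g u : PowerSeries R) : Prop where
  cg : PowerSeries.constantCoeff g = α
  cu : PowerSeries.constantCoeff u = 1
  cur : u ^ 2 = 1 + PowerSeries.C A' * (PowerSeries.X * g ^ 2) + PowerSeries.C B' * (PowerSeries.X * g ^ 2) ^ 2
  ode : y * (g + EE g) = PowerSeries.C α * u

/-- an isogeny of odd degree from `(A', B')` to `(A'', B'')` with multiplier `μ`: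
`s ↦ s P(s²)/Q(s²)`, second coordinate multiplied by `q(s²)/Q(s²)²` -/
structure OI (A' B' A'' B'' μ : R) (P Q q : R[X]) : Prop where
  p0 : P.coeff 0 = μ
  q0 : Q.coeff 0 = 1
  r0 : q.coeff 0 = 1
  ode : P * Q + 2 * X * (derivative P * Q - P * derivative Q) = C μ * q
  cur : (1 + C A' * X + C B' * X ^ 2) * q ^ 2
    = Q ^ 4 + C A'' * X * P ^ 2 * Q ^ 2 + C B'' * X ^ 2 * P ^ 4

end

section
variable {K : Type*} [Field K]

/-- `f` is a rational function -/
def Rt (f : PowerSeries K) : Prop := ∃ N D : K[X], D ≠ 0 ∧ (D : PowerSeries K) * f = (N : PowerSeries K)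

/-- `f` is a rational function of degree `d` -/
def Ht (f : PowerSeries K) (d : ℕ) : Prop := ∃ N D : K[X], IsCoprime N D ∧
  max N.natDegree D.natDegree = d ∧ (D : PowerSeries K) * f = (N : PowerSeries K)

/-- `f` is a rational function of degree `≤ d` -/
def HtLe (f : PowerSeries K) (d : ℕ) : Prop := ∃ N D : K[X], D ≠ 0 ∧ N.natDegree ≤ d ∧
  D.natDegree ≤ d ∧ (D : PowerSeries K) * f = (N : PowerSeries K)

/-- the two types of pairs -/
def Ty (y : PowerSeries K) (e : ℤ) (g u : PowerSeries K) : Prop :=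
  (Odd e → Rt g ∧ Rt (y * u)) ∧ (Even e → Rt (y * g) ∧ Rt u)

/-- composition with a given isogeny from `(A', B')` to `(A'', B'')` of degree `n`, multiplier `μ` and parity `ε` -/
def Op (y : PowerSeries K) (A' B' A'' B'' μ : K) (n : ℕ) (ε : ℤ) : Prop :=
  ∀ (α : K) (g u : PowerSeries K) (e : ℤ) (d : ℕ), Ml A' B' y α g u → Ty y e g u →
    HtLe (PowerSeries.X * g ^ 2) d → ∃ g' u' : PowerSeries K, Ml A'' B'' y (μ * α) g' u' ∧
      Ty y (ε * e) g' u' ∧ HtLe (PowerSeries.X * g' ^ 2) (n * d)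

end

/-! ### algebra of pairs -/

/-- ROW bm:MD (short, medium).  Apply `EE` (a derivation) to `cur`: with `ψ = X g²`, `EE ψ = 2 X g (g + EE g)`:
`2 u EE u = (A' + 2 B' ψ) 2 X g (g + EE g)`; multiply by `y`, use `ode`, cancel `2 u` (domain). -/
def MD_stmt : Prop := ∀ (R : Type) [CommRing R] [IsDomain R] [CharZero R] (A' B' α : R) (y g u : PowerSeries R),
  Ml A' B' y α g u → y * EE u = PowerSeries.C α *
    (PowerSeries.X * (PowerSeries.C A' * g + 2 * PowerSeries.C B' * PowerSeries.X * g ^ 3))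

/-- ROW bm:M1 (short).  Identity, zero, negative. -/
def M1_stmt : Prop := ∀ (R : Type) [CommRing R] (A' B' α : R) (y g u : PowerSeries R),
  (Yy A' B' y → Ml A' B' y 1 1 y) ∧ Ml A' B' y 0 0 1 ∧ (Ml A' B' y α g u → Ml A' B' y (-α) (-g) u)

/-- ROW bm:MA (medium, LONG algebra; hyp `MD_stmt`).  Addition.  `δ = 1 - B' X² g1² g2²` is a unit (constant
coefficient 1).  Define `g3`, `u3` by the two formulas.  `cur`: with `ψi = X gi²` multiply by `δ⁴` and use the two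
equations `ui² = 1 + A' ψi + B' ψi²` (`linear_combination`).  `ode`: apply `EE` to `δ g3 = g1 u2 + g2 u1`, use `ode` for
`g1, g2` and `MD` for `u1, u2` (everything multiplied by `y δ`). -/
def MA_stmt : Prop := ∀ (R : Type) [CommRing R] [IsDomain R] [CharZero R] (A' B' α1 α2 : R)
  (y g1 u1 g2 u2 : PowerSeries R), Ml A' B' y α1 g1 u1 → Ml A' B' y α2 g2 u2 →
  ∃ g3 u3 : PowerSeries R, Ml A' B' y (α1 + α2) g3 u3 ∧
    (1 - PowerSeries.C B' * (PowerSeries.X * g1 ^ 2) * (PowerSeries.X * g2 ^ 2)) * g3 = g1 * u2 + g2 * u1 ∧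
    (1 - PowerSeries.C B' * (PowerSeries.X * g1 ^ 2) * (PowerSeries.X * g2 ^ 2)) ^ 2 * u3
      = (1 + PowerSeries.C B' * (PowerSeries.X * g1 ^ 2) * (PowerSeries.X * g2 ^ 2))
          * (u1 * u2 + PowerSeries.C A' * (PowerSeries.X * g1 * g2))
        + 2 * PowerSeries.C B' * (PowerSeries.X * g1 * g2) * (PowerSeries.X * g1 ^ 2 + PowerSeries.X * g2 ^ 2)

/-- ROW bm:MU (medium).  Uniqueness.  If `d = g - g' ≠ 0` has order `n` then the coefficient of `X^n` in
`y (d + EE d) = C α (u - u')` is `(2n+1) d_n`, and `(u - u')(u + u') = X (g² - g'²)(A' + B' X (g² + g'²))` has order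
`≥ n+1`, `u + u'` has constant coefficient `2 ≠ 0`: contradiction; then `u = u'` from the same formula. (Or show
coefficient by coefficient, strong induction.) -/
def MU_stmt : Prop := ∀ (R : Type) [CommRing R] [IsDomain R] [CharZero R] (A' B' α : R)
  (y g u g' u' : PowerSeries R), PowerSeries.constantCoeff y = 1 → Ml A' B' y α g u → Ml A' B' y α g' u' →
  g = g' ∧ u = u'

/-- ROW bm:MP (medium; hyps `M1_stmt MA_stmt MU_stmt`).  `g3`, `g4` are given by the addition formula for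
`(g1, g2)` and `(g1, -g2)` (uniqueness). `δ² g3 g4 = g1² u2² - g2² u1²`, `X² (..)² `, and
`ψ1 u2² - ψ2 u1² = (ψ1 - ψ2) δ`, so `δ² ψ3 ψ4 = (ψ1 - ψ2)²` (after cancelling `δ²`), and
`δ² (ψ3 + ψ4) = 2 (ψ1 u2² + ψ2 u1²)`, `ui² = 1 + A' ψi + B' ψi²`. -/
def MP_stmt : Prop := ∀ (R : Type) [CommRing R] [IsDomain R] [CharZero R] (A' B' α1 α2 : R)
  (y g1 u1 g2 u2 g3 u3 g4 u4 : PowerSeries R), PowerSeries.constantCoeff y = 1 →
  Ml A' B' y α1 g1 u1 → Ml A' B' y α2 g2 u2 → Ml A' B' y (α1 + α2) g3 u3 → Ml A' B' y (α1 - α2) g4 u4 →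
  (1 - PowerSeries.C B' * (PowerSeries.X * g1 ^ 2) * (PowerSeries.X * g2 ^ 2)) ^ 2
      * ((PowerSeries.X * g3 ^ 2) * (PowerSeries.X * g4 ^ 2))
    = (PowerSeries.X * g1 ^ 2 - PowerSeries.X * g2 ^ 2) ^ 2 ∧
  (1 - PowerSeries.C B' * (PowerSeries.X * g1 ^ 2) * (PowerSeries.X * g2 ^ 2)) ^ 2
      * (PowerSeries.X * g3 ^ 2 + PowerSeries.X * g4 ^ 2)
    = 2 * ((PowerSeries.X * g1 ^ 2 + PowerSeries.X * g2 ^ 2)
        * (1 + PowerSeries.C B' * (PowerSeries.X * g1 ^ 2) * (PowerSeries.X * g2 ^ 2))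
      + 2 * PowerSeries.C A' * (PowerSeries.X * g1 ^ 2) * (PowerSeries.X * g2 ^ 2))

/-- ROW bm:MO (medium).  Composition with an isogeny of odd degree.  `ψ = X g²`, `P(ψ) = aeval ψ P` etc.;
`Q(ψ)` has constant coefficient `1`, so it is a unit; `g' = g P(ψ)/Q(ψ)`, `u' = u q(ψ)/Q(ψ)²`.  `cur`: `OI.cur` at `ψ`
times `u²`-relation.  `ode`: `EE (P(ψ)) = P'(ψ) EE ψ`, `EE ψ = 2 ψ + 2 X g EE g`, so
`(g' + EE g') Q(ψ)² = (g + EE g)(P Q + 2ψ(P'Q - PQ'))(ψ)`. -/
def MO_stmt : Prop := ∀ (R : Type) [CommRing R] [IsDomain R] [CharZero R] (A' B' A'' B'' μ α : R) (P Q q : R[X])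
  (y g u : PowerSeries R), OI A' B' A'' B'' μ P Q q → Ml A' B' y α g u →
  ∃ g' u' : PowerSeries R, Ml A'' B'' y (μ * α) g' u' ∧
    aeval (PowerSeries.X * g ^ 2) Q * g' = g * aeval (PowerSeries.X * g ^ 2) P ∧
    (aeval (PowerSeries.X * g ^ 2) Q) ^ 2 * u' = u * aeval (PowerSeries.X * g ^ 2) q

/-- ROW bm:M2 (medium; hyp `MD_stmt`).  Composition with the isogeny of degree 2: `g' = l g/u`,
`u' = (1 - B' ψ²)/u²`, `ψ = X g²`.  `cur`: `u⁴ - 2A'ψu² + (A'²-4B')ψ² = (u² - A'ψ)² - 4B'ψ² = (1 - B'ψ²)²`.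
`ode`: `u² (g' + EE g') = l ((g + EE g) u - g EE u)`, times `y`: `l α (u² - A'ψ - 2B'ψ²) = l α (1 - B'ψ²)`. -/
def M2_stmt : Prop := ∀ (R : Type) [CommRing R] [IsDomain R] [CharZero R] (A' B' A'' B'' l α : R)
  (y g u : PowerSeries R), l ^ 2 * A'' = -2 * A' → l ^ 4 * B'' = A' ^ 2 - 4 * B' → Ml A' B' y α g u →
  ∃ g' u' : PowerSeries R, Ml A'' B'' y (l * α) g' u' ∧ u * g' = PowerSeries.C l * g ∧
    u ^ 2 * u' = 1 - PowerSeries.C B' * (PowerSeries.X * g ^ 2) ^ 2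

/-- ROW bm:MM (short).  Base change along a ring homomorphism. -/
def MM_stmt : Prop := ∀ (R S : Type) [CommRing R] [CommRing S] (φ : R →+* S) (A' B' α : R)
  (y g u : PowerSeries R), (Ml A' B' y α g u →
    Ml (φ A') (φ B') (PowerSeries.map φ y) (φ α) (PowerSeries.map φ g) (PowerSeries.map φ u)) ∧
  (Yy A' B' y → Yy (φ A') (φ B') (PowerSeries.map φ y))

/-! ### rational power series, types -/

/-- ROW bm:RR (short, medium).  Rational power series. Last clause: `D1 d = N1`, `D2 f' = N2`, `N1 ≠ 0`: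
`(N1 D2) f = D1 N2`. -/
def RR_stmt : Prop := ∀ (K : Type) [Field K], (∀ P : K[X], Rt (P : PowerSeries K)) ∧
  (∀ c : K, Rt (PowerSeries.C c)) ∧ Rt (PowerSeries.X : PowerSeries K) ∧
  (∀ f g : PowerSeries K, Rt f → Rt g → Rt (f + g) ∧ Rt (f * g) ∧ Rt (f - g) ∧ Rt (-f)) ∧
  (∀ d f f' : PowerSeries K, Rt d → Rt f' → d ≠ 0 → d * f = f' → Rt f)

/-- ROW bm:TA (medium; hyp `RR_stmt`).  The type of a sum, from the two formulas of `MA`: even + even: `y g1 u2`,
`u1 u2`, `X g1 g2 = (y g1)(y g2) X / y²` (`y²` is a polynomial); odd + even, odd + odd similarly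
(`g1 u2 = g1 (y u2)/y`, ...). -/
def TA_stmt : Prop := ∀ (K : Type) [Field K] [CharZero K] (A B B' A' : K) (y g1 u1 g2 u2 g3 u3 : PowerSeries K)
  (e1 e2 : ℤ), Yy A B y → PowerSeries.constantCoeff u1 = 1 → PowerSeries.constantCoeff u2 = 1 →
  Ty y e1 g1 u1 → Ty y e2 g2 u2 →
  (1 - PowerSeries.C B' * (PowerSeries.X * g1 ^ 2) * (PowerSeries.X * g2 ^ 2)) * g3 = g1 * u2 + g2 * u1 →
  (1 - PowerSeries.C B' * (PowerSeries.X * g1 ^ 2) * (PowerSeries.X * g2 ^ 2)) ^ 2 * u3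
      = (1 + PowerSeries.C B' * (PowerSeries.X * g1 ^ 2) * (PowerSeries.X * g2 ^ 2))
          * (u1 * u2 + PowerSeries.C A' * (PowerSeries.X * g1 * g2))
        + 2 * PowerSeries.C B' * (PowerSeries.X * g1 * g2) * (PowerSeries.X * g1 ^ 2 + PowerSeries.X * g2 ^ 2) →
  Ty y (e1 + e2) g3 u3

/-- ROW bm:TP (short; hyp `RR_stmt`).  `ψ = X g²` is rational for both types (`y² ψ = X (y g)²`); the identity
pair is odd, the zero pair is even, the negative has the same type. -/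
def TP_stmt : Prop := ∀ (K : Type) [Field K] [CharZero K] (A B : K) (y g u : PowerSeries K) (e : ℤ), Yy A B y →
  (Ty y e g u → Rt (PowerSeries.X * g ^ 2)) ∧ Ty y 1 1 y ∧ Ty y 0 0 1 ∧
  (Ty y e g u → Ty y e (-g) u) ∧ (∀ e' : ℤ, Even (e - e') → Ty y e g u → Ty y e' g u)

/-! ### heights -/

/-- ROW bm:HU (medium).  The degree is unique: `N D' = N' D`, both pairs coprime, so they agree up to a
constant (`N ∣ N'`, `N' ∣ N`, ...; `N = 0` forces `D` constant). -/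
def HU_stmt : Prop := ∀ (K : Type) [Field K] (f : PowerSeries K) (d d' : ℕ), Ht f d → Ht f d' → d = d'

/-- ROW bm:HE (short, medium).  Divide `N`, `D` by their gcd (`K[X]` is a principal ideal ring; the degrees do not
increase; cancel the gcd in the domain `K⟦X⟧`). -/
def HE_stmt : Prop := ∀ (K : Type) [Field K] (f : PowerSeries K) (d : ℕ),
  (HtLe f d → ∃ d' ≤ d, Ht f d') ∧ (Ht f d → HtLe f d) ∧ (Rt f → ∃ d', Ht f d') ∧ Ht (0 : PowerSeries K) 0 ∧
  Ht (PowerSeries.X : PowerSeries K) 1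

/-- ROW bm:TC (medium).  The triple of the product of two coprime pairs.  Unimodular: an irreducible `q`
dividing all three (or a maximal ideal containing them) divides `a` or `c`, ... as usual.  Degree: if
`deg a ≥ deg b` and `deg c ≥ deg d` look at `a c`; if `<` and `<` at `b d`; if `deg a ≥ deg b`, `deg c < deg d`:
`deg (b c) < deg (a d)`; symmetric. -/
def TC_stmt : Prop := ∀ (K : Type) [Field K] (a b c d : K[X]), IsCoprime a b → IsCoprime c d →
  (∃ u v w : K[X], u * (a * c) + v * (a * d + b * c) + w * (b * d) = 1) ∧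
  max (a * c).natDegree (max (a * d + b * c).natDegree (b * d).natDegree)
    = max a.natDegree b.natDegree + max c.natDegree d.natDegree

/-- ROW bm:ZE (short, medium).  No common zero (any field of characteristic not 2). `d1 d2 = B' n1 n2` and
`n1 d2 = n2 d1`: `(n2, d2) = t (n1, d1)`, `t ≠ 0`, so `d1² = B' n1²`, `n1, d1 ≠ 0`, and the third form is
`2 t² n1² d1 (2 B' n1 + A' d1)`, so `2 B' n1 = -A' d1`, `4 B' = A'²`. -/
def ZE_stmt : Prop := ∀ (F : Type) [Field F] (A' B' n1 d1 n2 d2 : F), (2 : F) ≠ 0 → B' ≠ 0 → A' ^ 2 ≠ 4 * B' →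
  (n1 ≠ 0 ∨ d1 ≠ 0) → (n2 ≠ 0 ∨ d2 ≠ 0) →
  d1 * d2 - B' * n1 * n2 = 0 → n1 * d2 - n2 * d1 = 0 →
  (n1 * d2 + n2 * d1) * (d1 * d2 + B' * n1 * n2) + 2 * A' * n1 * n2 * d1 * d2 = 0 → False

/-- ROW bm:TF (medium; hyp `ZE_stmt`).  The triple of the addition formulas is unimodular: otherwise it lies in a
maximal ideal `M`, and `ZE` in the field `K[X]/M` (characteristic 0) gives a contradiction.  Degrees: with
`di = max (deg Ni) (deg Di)` all three have degree `≤ 2 (d1+d2)`, and the coefficients at `2 (d1+d2)` are the same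
forms in `ni = coeff di Ni`, `di' = coeff di Di` (not both 0): by `ZE` not all of them vanish. -/
def TF_stmt : Prop := ∀ (K : Type) [Field K] [CharZero K] (A' B' : K) (N1 D1 N2 D2 : K[X]), B' ≠ 0 →
  A' ^ 2 ≠ 4 * B' → IsCoprime N1 D1 → IsCoprime N2 D2 →
  (∃ u v w : K[X], u * (N1 * D2 - N2 * D1) ^ 2
      + v * (2 * ((N1 * D2 + N2 * D1) * (D1 * D2 + C B' * N1 * N2) + 2 * C A' * N1 * N2 * D1 * D2))
      + w * (D1 * D2 - C B' * N1 * N2) ^ 2 = 1) ∧
  max ((N1 * D2 - N2 * D1) ^ 2).natDegree (max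
      (2 * ((N1 * D2 + N2 * D1) * (D1 * D2 + C B' * N1 * N2) + 2 * C A' * N1 * N2 * D1 * D2)).natDegree
      ((D1 * D2 - C B' * N1 * N2) ^ 2).natDegree)
    = 2 * (max N1.natDegree D1.natDegree + max N2.natDegree D2.natDegree)

/-- ROW bm:TE (short, medium).  Proportional unimodular triples over a domain: with
`κ = u' a + v' b + w' c` (coefficients of the second relation): `κ a' = a` etc. (`κ a' = u' a a' + v' b a' + w' c a' =
a (u' a' + v' b' + w' c')`), and the same with exchanged roles gives `κ κ' = 1`, so `κ` is a nonzero constant. -/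
def TE_stmt : Prop := ∀ (K : Type) [Field K] (a b c a' b' c' u v w u' v' w' : K[X]),
  u * a + v * b + w * c = 1 → u' * a' + v' * b' + w' * c' = 1 → a * b' = a' * b → a * c' = a' * c →
  b * c' = b' * c →
  max a.natDegree (max b.natDegree c.natDegree) = max a'.natDegree (max b'.natDegree c'.natDegree)

/-- ROW bm:PL (medium; hyps `TC_stmt TF_stmt TE_stmt`).  Parallelogram law.  `fi = Ni/Di`; `δ ≠ 0`.
`T0 = (D1D2 - B'N1N2)²`, `T1 = 2(...)`, `T2 = (N1D2-N2D1)²` as in TF satisfy (in `K⟦X⟧`)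
`T0 f3 f4 = T2`, `T0 (f3+f4) = T1`, so with `f3 = N3/D3`, `f4 = N4/D4` the triples `(N3N4, N3D4+N4D3, D3D4)` and
`(T2, T1, T0)` are proportional (`Polynomial.coe_injective`-type cancellation in `K⟦X⟧`); TC, TF, TE. -/
def PL_stmt : Prop := ∀ (K : Type) [Field K] [CharZero K] (A' B' : K) (f1 f2 f3 f4 : PowerSeries K)
  (d1 d2 d3 d4 : ℕ), B' ≠ 0 → A' ^ 2 ≠ 4 * B' → Ht f1 d1 → Ht f2 d2 → Ht f3 d3 → Ht f4 d4 →
  PowerSeries.constantCoeff f1 = 0 →
  (1 - PowerSeries.C B' * f1 * f2) ^ 2 * (f3 * f4) = (f1 - f2) ^ 2 →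
  (1 - PowerSeries.C B' * f1 * f2) ^ 2 * (f3 + f4)
    = 2 * ((f1 + f2) * (1 + PowerSeries.C B' * f1 * f2) + 2 * PowerSeries.C A' * f1 * f2) →
  d3 + d4 = 2 * (d1 + d2)

/-! ### isogenies act on heights and types -/

/-- ROW bm:OO (medium; hyps `RR_stmt MO_stmt`).  `ψ' = ψ P(ψ)²/Q(ψ)²`; if `ψ = N/D` with degrees `≤ d` then
`D^k P(ψ)`, `D^k Q(ψ)` are polynomials of degree `≤ k d` (`∑ P_i N^i D^(k-i)`), and `ψ' = N (..)²/(D (..)²)`;
the denominator is `≠ 0` since `Q(ψ)` has constant coefficient 1 and `D ≠ 0`.  Type: `P(ψ)`, `Q(ψ)`, `q(ψ)` are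
rational (`ψ` is). -/
def OO_stmt : Prop := ∀ (K : Type) [Field K] [CharZero K] (A B A' B' A'' B'' μ : K) (P Q q : K[X])
  (y : PowerSeries K) (k : ℕ), Yy A B y → OI A' B' A'' B'' μ P Q q → P.natDegree ≤ k → Q.natDegree ≤ k →
  Op y A' B' A'' B'' μ (2 * k + 1) 1

/-- ROW bm:O2 (medium; hyps `RR_stmt M2_stmt`).  `ψ' = l² ψ/(1+A'ψ+B'ψ²)`.  The type is even (parity `0`): odd
pairs `g' = l g/u = l g y/(y u)`, `y g'` rational; `u' = (1-B'ψ²)/(1+A'ψ+B'ψ²)` is rational in all cases. -/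
def O2_stmt : Prop := ∀ (K : Type) [Field K] [CharZero K] (A B A' B' A'' B'' l : K) (y : PowerSeries K),
  Yy A B y → l ^ 2 * A'' = -2 * A' → l ^ 4 * B'' = A' ^ 2 - 4 * B' → Op y A' B' A'' B'' l 2 0

/-- ROW bm:OC (short).  Composition. -/
def OC_stmt : Prop := ∀ (K : Type) [Field K] (y : PowerSeries K) (A B A' B' A'' B'' μ μ' : K) (n n' : ℕ)
  (ε ε' : ℤ), Op y A B A' B' μ n ε → Op y A' B' A'' B'' μ' n' ε' → Op y A B A'' B'' (μ' * μ) (n' * n) (ε' * ε)

/-! ### quadratic forms -/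

/-- ROW bm:Q0 (medium, pure).  A function with the parallelogram law on `ℤ²` is a quadratic form. Induction:
`H 0 0 = 0` (`a=b=c=d=0`), `H (-a) (-b) = H a b`, `H n 0 = n² H 1 0` (two step induction), then
`H n 1 = n² x + n c + z`, then in the second variable; negative values by symmetry. -/
def Q0_stmt : Prop := ∀ H : ℤ → ℤ → ℤ,
  (∀ a b c d : ℤ, H (a + c) (b + d) + H (a - c) (b - d) = 2 * H a b + 2 * H c d) →
  ∀ a b : ℤ, H a b = a ^ 2 * H 1 0 + a * b * (H 1 1 - H 1 0 - H 0 1) + b ^ 2 * H 0 1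

/-- ROW bm:Q1 (short; hyp `Q0_stmt`).  From `(1,0)`: `H 0 1 ≤ N`; from `(0,1)`: `N² ≤ N H 0 1`; from `(1,1)` and
`(1,-1)`: the middle coefficient vanishes. -/
def Q1_stmt : Prop := ∀ (H : ℤ → ℤ → ℤ) (N : ℤ), 0 < N →
  (∀ a b c d : ℤ, H (a + c) (b + d) + H (a - c) (b - d) = 2 * H a b + 2 * H c d) → H 1 0 = 1 →
  (∀ a b : ℤ, H (-N * b) a ≤ N * H a b) → ∀ a b : ℤ, H a b = a ^ 2 + N * b ^ 2

/-- ROW bm:Q2 (short; hyp `Q0_stmt`).  `H 1 0 = m`, `H 0 1 = n` and `H 1 1, H 1 (-1) ≥ m + n`. -/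
def Q2_stmt : Prop := ∀ (H : ℤ → ℤ → ℤ) (m n : ℤ), 0 < m → 0 < n →
  (∀ a b c d : ℤ, H (a + c) (b + d) + H (a - c) (b - d) = 2 * H a b + 2 * H c d) →
  H 1 0 ≤ m → H 0 1 ≤ n → (∀ a b : ℤ, m ^ 2 * a ^ 2 + m * n * b ^ 2 ≤ m * H a b) →
  ∀ a b : ℤ, H a b = m * a ^ 2 + n * b ^ 2

/-- ROW bm:LP (medium, principal lattice; hyps
`M1_stmt MA_stmt MU_stmt MP_stmt TA_stmt TP_stmt HU_stmt HE_stmt PL_stmt Q1_stmt`).
All `a + b β` have a pair of type `a + ε b`: multiples of the pairs of `1` and `β` (`Op` applied to `(1, y)`) by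
induction with MA, TA.  Let `H a b` be the degree of its `ψ` (exists by TP, HE; unique by MU, HU).
Parallelogram law: MP and PL.  `H 1 0 = 1` (`ψ = X`).  `H (-N b) a ≤ N H a b`: `Op` applied to the pair of
`a + b β`, `β (a + b β) = -N b + a β` (HE: the exact degree is `≤` a bound, with HU).  Q1. -/
def LP_stmt : Prop := ∀ (K : Type) [Field K] [CharZero K] (A B β : K) (N : ℕ) (ε : ℤ) (y : PowerSeries K),
  Yy A B y → B ≠ 0 → A ^ 2 ≠ 4 * B → 0 < N → β ^ 2 = -(N : K) → Op y A B A B β N ε →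
  ∀ a b : ℤ, ∃ g u : PowerSeries K, Ml A B y (a + b * β) g u ∧ Ty y (a + ε * b) g u ∧
    Ht (PowerSeries.X * g ^ 2) (a ^ 2 + N * b ^ 2).toNat

/-- ROW bm:LT2 (medium, the lattice of isogenies to the second curve; hyps
`M1_stmt MA_stmt MU_stmt MP_stmt TA_stmt TP_stmt HU_stmt HE_stmt PL_stmt Q2_stmt LP_stmt`).
As LP with the pairs of `μ`, `ν` (`Op` applied to `(1, y)`), types `ε a + ε' b`.  Upper bounds `H 1 0 ≤ m`,
`H 0 1 ≤ n` from `Op`.  Lower bound: `Op` for `μ'` applied to the pair of `a μ + b ν` gives the pair of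
`μ' (a μ + b ν) = (a σ m) + (b τ) β`, whose degree is `m² a² + m n b²` by LP (`σ, τ = ±1`, MU, HU) and `≤ m H a b`. -/
def LT2_stmt : Prop := ∀ (K : Type) [Field K] [CharZero K] (A B A' B' β μ ν μ' : K) (m n : ℕ) (ε ε' ε'' εβ σ τ : ℤ)
  (y : PowerSeries K), Yy A B y → B ≠ 0 → A ^ 2 ≠ 4 * B → B' ≠ 0 → A' ^ 2 ≠ 4 * B' → 0 < m → 0 < n →
  β ^ 2 = -((m * n : ℕ) : K) → Op y A B A B β (m * n) εβ →
  Op y A B A' B' μ m ε → Op y A B A' B' ν n ε' → Op y A' B' A B μ' m ε'' →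
  σ ^ 2 = 1 → τ ^ 2 = 1 → μ' * μ = σ * m → μ' * ν = τ * β →
  ∀ a b : ℤ, ∃ g u : PowerSeries K, Ml A' B' y (a * μ + b * ν) g u ∧ Ty y (ε * a + ε' * b) g u ∧
    Ht (PowerSeries.X * g ^ 2) (m * a ^ 2 + n * b ^ 2).toNat

/-- ROW bm:RG (medium).  From the height of `ψ = X g²` to `g`: `g` rational of odd type and `Ht (X g²) p`, `p = 2m+1`:
write `g = N/D` coprime; `D(0) ≠ 0` (else `N(0) = 0` too), so `X N²`, `D²` are coprime, and by uniqueness of the
degree (`HU`) `max (1 + 2 deg N) (2 deg D) = 2m+1` (`N ≠ 0`; if `N = 0` the degree is `0`). -/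
def RG_stmt : Prop := ∀ (K : Type) [Field K] (g : PowerSeries K) (m : ℕ), Rt g →
  Ht (PowerSeries.X * g ^ 2) (2 * m + 1) → ∃ N D : K[X], D ≠ 0 ∧ N.natDegree ≤ m ∧ D.natDegree ≤ m ∧
    (D : PowerSeries K) * g = (N : PowerSeries K)

end Pool.Agent.helper60.DB
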