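import Pool.Agent.helper60.DB.SpecF
import Pool.Agent.helper60.DA.FINA

/-!
# Final assembly of parts (b) and (c)
-/

namespace Pool.Agent.helper60.DB

open Polynomial Finset Pool.Agent.helper60.DK
open Pool.Agent.helper60.DA (congrSq_trans_symm congrSq_int_mul transfer eval_Sz_eq)

theorem transferSt {p : ℕ} [hp : Fact p.Prime] (tr2 : TR2_stmt) (st : DA.ST_stmt) (h5 : 5 ≤ p)
    {x : ℚ} {t c : ℤ} (hd : ¬ p ∣ x.den) (ht : (p : ℤ) ^ 2 ∣ t * x.den - x.num)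
    (h : (p : ℤ) ^ 2 ∣ (DA.St p).eval t - c) :
    CongrSq p (∑ k ∈ range p, (-1) ^ k * D k x ^ 3) (c : ℚ) := by
  apply transfer tr2 hd ht
  rw [eval_Sz_eq st h5]
  have e : ((p ^ 2 : ℕ) : ℤ) ∣ (DA.St p).eval t - c := by exact_mod_cast h
  rw [← ZMod.intCast_zmod_eq_zero_iff_dvd] at e
  push_cast at e
  linear_combination e

theorem leg_ne {p : ℕ} [hp : Fact p.Prime] {a : ℤ} (h : ¬ (p : ℤ) ∣ a) : ((a : ℤ) : ZMod p) ≠ 0 := by
  rw [Ne, int_dvd_iff]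
  exact h

theorem half_data {p : ℕ} [hp : Fact p.Prime] (h3 : 3 < p) (tr1 : TR1_stmt) :
    ¬ p ∣ (1 / 2 : ℚ).den ∧ ∃ t : ℤ, (p : ℤ) ^ 2 ∣ t * (1 / 2 : ℚ).den - (1 / 2 : ℚ).num ∧
      (p : ℤ) ^ 2 ∣ 2 * t - 1 := by
  have hden : (1 / 2 : ℚ).den = 2 := by norm_num
  have hnum : (1 / 2 : ℚ).num = 1 := by norm_num
  have hd : ¬ p ∣ (1 / 2 : ℚ).den := by
    rw [hden]
    intro h
    have := Nat.le_of_dvd (by norm_num) h
    omega
  refine ⟨hd, ?_⟩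
  obtain ⟨t, ht⟩ := tr1 p (1 / 2) hd
  refine ⟨t, ht, ?_⟩
  have h := ht
  rw [hden, hnum] at h
  have e : t * ((2 : ℕ) : ℤ) - 1 = 2 * t - 1 := by push_cast; ring
  rwa [e] at h

/-- part (b), both split cases -/
theorem splitB (tr1 : TR1_stmt) (tr2 : TR2_stmt) (st : DA.ST_stmt) (l2 : L2_stmt) (bz : BZ_stmt)
    {p : ℕ} [hp : Fact p.Prime] (h3 : 3 < p) (x y : ℤ) :
    ((p : ℤ) = x ^ 2 + 6 * y ^ 2 →
      CongrSq p ((legendreSym p (-1) : ℚ) * ∑ k ∈ range p, (-1) ^ k * D k (1 / 2) ^ 3)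
        (4 * (x : ℚ) ^ 2 - 2 * (p : ℚ))) ∧
    ((p : ℤ) = 2 * x ^ 2 + 3 * y ^ 2 →
      CongrSq p ((legendreSym p (-1) : ℚ) * ∑ k ∈ range p, (-1) ^ k * D k (1 / 2) ^ 3)
        (8 * (x : ℚ) ^ 2 - 2 * (p : ℚ))) := by
  have h5 : 5 ≤ p := by
    have : p ≠ 4 := by
      rintro rfl
      exact absurd hp.out (by norm_num)
    omega
  obtain ⟨hd, t, ht, ht2⟩ := half_data (p := p) h3 tr1
  obtain ⟨b1, b2⟩ := bz p h5 t x y ht2
  obtain ⟨l1, l2'⟩ := l2 p h5 x y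
  have hm : legendreSym p (-6) = legendreSym p (-1) * legendreSym p 6 := by
    rw [← legendreSym.mul]; norm_num
  constructor
  · intro h
    have h1 := congrSq_int_mul (legendreSym p (-1)) (transferSt tr2 st h5 hd ht (b1 h))
    have h2 : legendreSym p (-1) * legendreSym p 6 = 1 := by rw [← hm]; exact (l1 h).2
    have e : ((legendreSym p (-1) : ℤ) : ℚ) * ((legendreSym p 6 * (4 * x ^ 2 - 2 * p) : ℤ) : ℚ)
        = 4 * (x : ℚ) ^ 2 - 2 * (p : ℚ) := by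
      have h4 : ((legendreSym p (-1) : ℤ) : ℚ) * ((legendreSym p 6 : ℤ) : ℚ) = 1 := by
        rw [← Int.cast_mul, h2]; norm_num
      push_cast
      linear_combination (4 * (x : ℚ) ^ 2 - 2 * (p : ℚ)) * h4
    rwa [e] at h1
  · intro h
    have h1 := congrSq_int_mul (legendreSym p (-1)) (transferSt tr2 st h5 hd ht (b2 h))
    have h2 : legendreSym p (-1) * legendreSym p 6 = 1 := by rw [← hm]; exact (l2' h).2
    have e : ((legendreSym p (-1) : ℤ) : ℚ) * ((legendreSym p 6 * (8 * x ^ 2 - 2 * p) : ℤ) : ℚ)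
        = 8 * (x : ℚ) ^ 2 - 2 * (p : ℚ) := by
      have h4 : ((legendreSym p (-1) : ℤ) : ℚ) * ((legendreSym p 6 : ℤ) : ℚ) = 1 := by
        rw [← Int.cast_mul, h2]; norm_num
      push_cast
      linear_combination (8 * (x : ℚ) ^ 2 - 2 * (p : ℚ)) * h4
    rwa [e] at h1

theorem sixteenth_data {p : ℕ} [hp : Fact p.Prime] (h3 : 3 < p) (tr1 : TR1_stmt) :
    ¬ p ∣ (-1 / 16 : ℚ).den ∧
      ∃ t : ℤ, (p : ℤ) ^ 2 ∣ t * (-1 / 16 : ℚ).den - (-1 / 16 : ℚ).num ∧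
      (p : ℤ) ^ 2 ∣ 16 * t + 1 := by
  have hden : (-1 / 16 : ℚ).den = 16 := by norm_num
  have hnum : (-1 / 16 : ℚ).num = -1 := by norm_num
  have hd : ¬ p ∣ (-1 / 16 : ℚ).den := by
    rw [hden]
    intro h
    have h2 : p ∣ 2 ^ 4 := by norm_num; exact h
    have h3' := hp.out.dvd_of_dvd_pow h2
    have := Nat.le_of_dvd (by norm_num) h3'
    omega
  refine ⟨hd, ?_⟩
  obtain ⟨t, ht⟩ := tr1 p (-1 / 16) hd
  refine ⟨t, ht, ?_⟩
  have h := ht
  rw [hden, hnum] at h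
  have e : t * ((16 : ℕ) : ℤ) - -1 = 16 * t + 1 := by push_cast; ring
  rwa [e] at h

/-- part (c), both split cases -/
theorem splitC (tr1 : TR1_stmt) (tr2 : TR2_stmt) (par : PAR_stmt) (st : DA.ST_stmt) (l5 : L5_stmt)
    (cz : CZ_stmt) {p : ℕ} [hp : Fact p.Prime] (h7 : 7 ≤ p) (x y : ℤ) :
    ((p : ℤ) = x ^ 2 + 15 * y ^ 2 →
      CongrSq p (∑ k ∈ range p, D k 3 ^ 3) (4 * (x : ℚ) ^ 2 - 2 * (p : ℚ)) ∧
      CongrSq p ((legendreSym p (-5) : ℚ) * ∑ k ∈ range p, (-1) ^ k * D k (-1 / 16) ^ 3)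
        (4 * (x : ℚ) ^ 2 - 2 * (p : ℚ))) ∧
    ((p : ℤ) = 3 * x ^ 2 + 5 * y ^ 2 →
      CongrSq p (∑ k ∈ range p, D k 3 ^ 3) (12 * (x : ℚ) ^ 2 - 2 * (p : ℚ)) ∧
      CongrSq p ((legendreSym p (-5) : ℚ) * ∑ k ∈ range p, (-1) ^ k * D k (-1 / 16) ^ 3)
        (12 * (x : ℚ) ^ 2 - 2 * (p : ℚ))) := by
  have h5 : 5 ≤ p := by omega
  obtain ⟨hd, t, ht, ht2⟩ := sixteenth_data (p := p) (by omega) tr1
  obtain ⟨c1, c2⟩ := cz p h7 t x y ht2
  obtain ⟨l1, l2⟩ := l5 p h7 x y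
  have hm : legendreSym p (-5) * legendreSym p 3 = legendreSym p 5 * legendreSym p (-3) := by
    rw [← legendreSym.mul, ← legendreSym.mul]; norm_num
  have hd4 : ¬ p ∣ (-4 : ℚ).den := by
    have : (-4 : ℚ).den = 1 := by norm_num
    rw [this]
    intro h
    exact hp.out.one_lt.ne' (Nat.dvd_one.mp h)
  have h4 : (p : ℤ) ^ 2 ∣ (-4) * (-4 : ℚ).den - (-4 : ℚ).num := by
    have e1 : (-4 : ℚ).den = 1 := by norm_num
    have e2 : (-4 : ℚ).num = -4 := by norm_num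
    rw [e1, e2]; norm_num
  have hpar : ∑ k ∈ range p, D k 3 ^ 3 = ∑ k ∈ range p, (-1) ^ k * D k (-4) ^ 3 := by
    rw [← sum_par par]; norm_num
  constructor
  · intro h
    have h2 : legendreSym p (-5) * legendreSym p 3 = 1 := by
      rw [hm, (l1 h).1, (l1 h).2.1]; norm_num
    constructor
    · rw [hpar]
      have h1 := transferSt tr2 st h5 hd4 h4 (c1 h).1
      push_cast at h1
      exact h1
    · have h1 := congrSq_int_mul (legendreSym p (-5)) (transferSt tr2 st h5 hd ht (c1 h).2)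
      have e : ((legendreSym p (-5) : ℤ) : ℚ) * ((legendreSym p 3 * (4 * x ^ 2 - 2 * p) : ℤ) : ℚ)
          = 4 * (x : ℚ) ^ 2 - 2 * (p : ℚ) := by
        have h4 : ((legendreSym p (-5) : ℤ) : ℚ) * ((legendreSym p 3 : ℤ) : ℚ) = 1 := by
          rw [← Int.cast_mul, h2]; norm_num
        push_cast
        linear_combination (4 * (x : ℚ) ^ 2 - 2 * (p : ℚ)) * h4
      rwa [e] at h1
  · intro h
    have h2 : legendreSym p (-5) * legendreSym p 3 = 1 := by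
      rw [hm, (l2 h).1, (l2 h).2.1]; norm_num
    constructor
    · rw [hpar]
      have h1 := transferSt tr2 st h5 hd4 h4 (c2 h).1
      push_cast at h1
      exact h1
    · have h1 := congrSq_int_mul (legendreSym p (-5)) (transferSt tr2 st h5 hd ht (c2 h).2)
      have e : ((legendreSym p (-5) : ℤ) : ℚ) * ((legendreSym p 3 * (12 * x ^ 2 - 2 * p) : ℤ) : ℚ)
          = 12 * (x : ℚ) ^ 2 - 2 * (p : ℚ) := by
        have h4 : ((legendreSym p (-5) : ℤ) : ℚ) * ((legendreSym p 3 : ℤ) : ℚ) = 1 := by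
          rw [← Int.cast_mul, h2]; norm_num
        push_cast
        linear_combination (12 * (x : ℚ) ^ 2 - 2 * (p : ℚ)) * h4
      rwa [e] at h1

/-- the first congruence of (c) for `p ≠ 5` -/
theorem chainC (tr1 : TR1_stmt) (tr2 : TR2_stmt) (par : PAR_stmt) (st : DA.ST_stmt) (l5 : L5_stmt)
    (cz : CZ_stmt) (ex : EX_stmt) (p4 : P4_stmt) (p16 : P16_stmt) {p : ℕ} [hp : Fact p.Prime]
    (h7 : 7 ≤ p) :
    CongrSq p (∑ k ∈ range p, D k 3 ^ 3)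
      ((legendreSym p (-5) : ℚ) * ∑ k ∈ range p, (-1) ^ k * D k (-1 / 16) ^ 3) := by
  have h15 : ((-15 : ℤ) : ZMod p) ≠ 0 := by
    apply leg_ne
    intro h
    have h1 : (p : ℤ) ∣ 15 := by rwa [dvd_neg] at h
    have h2 : p ∣ 3 * 5 := by exact_mod_cast h1
    rcases hp.out.dvd_mul.mp h2 with h | h
    · have := Nat.le_of_dvd (by norm_num) h
      omega
    · have := Nat.le_of_dvd (by norm_num) h
      omega
  rcases legendreSym.eq_one_or_neg_one p h15 with h | h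
  · rcases ex p h7 h with ⟨a, b, hab⟩ | ⟨a, b, hab⟩
    · obtain ⟨c1, c2⟩ := (splitC tr1 tr2 par st l5 cz h7 a b).1 hab
      exact congrSq_trans_symm c1 c2
    · obtain ⟨c1, c2⟩ := (splitC tr1 tr2 par st l5 cz h7 a b).2 hab
      exact congrSq_trans_symm c1 c2
  · have c1 := val_neg_four tr1 tr2 h7 (p4 p h7 h)
    have c2 := congrSq_int_mul (legendreSym p (-5)) (val_sixteenth tr1 tr2 h7 (p16 p h7 h))
    rw [mul_zero] at c2
    have hpar : ∑ k ∈ range p, D k 3 ^ 3 = ∑ k ∈ range p, (-1) ^ k * D k (-4) ^ 3 := by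
      rw [← sum_par par]; norm_num
    rw [hpar]
    exact congrSq_trans_symm c1 c2

/-- the first congruence of (c) fails for `p = 5` -/
theorem chain5 : ¬ CongrSq 5 (∑ k ∈ range 5, D k 3 ^ 3)
    (((@legendreSym 5 ⟨Nat.prime_five⟩ (-5) : ℤ) : ℚ)
      * ∑ k ∈ range 5, (-1) ^ k * D k (-1 / 16) ^ 3) := by
  have h0 : @legendreSym 5 ⟨Nat.prime_five⟩ (-5) = 0 := by
    rw [@legendreSym.eq_zero_iff 5 ⟨Nat.prime_five⟩ (-5)]
    decide
  rw [h0, Int.cast_zero, zero_mul]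
  rintro ⟨r, hr, h⟩
  have hs : ∑ k ∈ range 5, D k 3 ^ 3 = (1100032340945 : ℚ) := by
    norm_num [D, Finset.sum_range_succ, Nat.choose]
  rw [hs] at h
  have e : r = 220006468189 / 5 := by
    have h1 : (1100032340945 : ℚ) - 0 = 25 * r := by rw [h]; norm_num
    linarith
  apply hr
  rw [e]
  norm_num

end Pool.Agent.helper60.DB
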