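import Pool.Agent.helper60.DB.SpecF

/-!
# Row bf:GP
-/

namespace Pool.Agent.helper60.DB

open Polynomial

theorem GP (hMU : MU_stmt) (hMM : MM_stmt) (hRG : RG_stmt) (hCV : CV_stmt) : GP_stmt := by
  intro R k _ _ _ _ p m _ _ q hl h5 hp A B A' B' π α y w g u g' u' e hy hw hml hπ hπα hB hAB hB'
    hml' he hty hht
  have h1 := (hMM R (FractionRing R) (algebraMap R (FractionRing R)) A' B' π y g u).1 hml
  have hy1 : PowerSeries.constantCoeff (PowerSeries.map (algebraMap R (FractionRing R)) y) = 1 := by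
    rw [← PowerSeries.coeff_zero_eq_constantCoeff_apply, PowerSeries.coeff_map,
      PowerSeries.coeff_zero_eq_constantCoeff_apply, hy.one, map_one]
  haveI : CharZero (FractionRing R) :=
    charZero_of_injective_algebraMap (IsFractionRing.injective R (FractionRing R))
  obtain ⟨hg, -⟩ := hMU (FractionRing R) _ _ _ _ _ _ _ _ hy1 h1 hml'
  obtain ⟨hr, -⟩ := hty.1 he
  rw [← hg] at hr hht
  rw [hp] at hht
  obtain ⟨N, D, hD, hN1, hD1, hND⟩ := hRG (FractionRing R) _ m hr hht
  exact hCV R k p m q hl h5 hp A B A' B' π α y w g u N D hy hw hml hπ hπα hB hAB hB' hD hN1 hD1 hND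

end Pool.Agent.helper60.DB
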