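import Pool.Agent.helper60.DB.SpecC

/-!
# Row bc:IT
-/

namespace Pool.Agent.helper60.DB

open Polynomial Finset

theorem IT_poly {R : Type} [CommRing R] (A B : R) (y w : PowerSeries R) (M : ℕ) (hy : Yy A B y)
    (hw : w * y = 1) : ∃ H : R[X], (1 + C A * X + C B * X ^ 2)
      * (∑ j ∈ range (M + 1), C (PowerSeries.coeff j w) * X ^ j) ^ 2 - 1 = X ^ (M + 1) * H := by
  set T : R[X] := ∑ j ∈ range (M + 1), C (PowerSeries.coeff j w) * X ^ j with hT
  have hTc : ∀ j, T.coeff j = if j < M + 1 then PowerSeries.coeff j w else 0 := by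
    intro j
    rw [hT, finset_sum_coeff]
    simp only [coeff_C_mul_X_pow]
    rw [Finset.sum_ite_eq (range (M + 1)) j]
    simp
  have h1 : ∃ v : PowerSeries R, w = (T : PowerSeries R) + PowerSeries.X ^ (M + 1) * v := by
    have h2 : (PowerSeries.X : PowerSeries R) ^ (M + 1) ∣ w - (T : PowerSeries R) := by
      rw [PowerSeries.X_pow_dvd_iff]
      intro j hj
      rw [map_sub, Polynomial.coeff_coe, hTc, if_pos hj, sub_self]
    obtain ⟨v, hv⟩ := h2
    exact ⟨v, by rw [← hv]; ring⟩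
  obtain ⟨v, hv⟩ := h1
  have h3 : (1 + PowerSeries.C A * PowerSeries.X + PowerSeries.C B * PowerSeries.X ^ 2) * w ^ 2 = 1 := by
    rw [← hy.sq]
    calc y ^ 2 * w ^ 2 = (w * y) ^ 2 := by ring
      _ = 1 := by rw [hw, one_pow]
  have h4 : X ^ (M + 1) ∣ (1 + C A * X + C B * X ^ 2) * T ^ 2 - 1 := by
    rw [Polynomial.X_pow_dvd_iff]
    intro d hd
    rw [← Polynomial.coeff_coe]
    have h5 : (((1 + C A * X + C B * X ^ 2) * T ^ 2 - 1 : R[X]) : PowerSeries R)
        = PowerSeries.X ^ (M + 1) * (-((1 + PowerSeries.C A * PowerSeries.X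
          + PowerSeries.C B * PowerSeries.X ^ 2) * v * (2 * (T : PowerSeries R)
            + PowerSeries.X ^ (M + 1) * v))) := by
      rw [hv] at h3
      push_cast
      linear_combination h3
    rw [h5]
    have h6 : (PowerSeries.X : PowerSeries R) ^ (M + 1) ∣ PowerSeries.X ^ (M + 1)
        * (-((1 + PowerSeries.C A * PowerSeries.X
          + PowerSeries.C B * PowerSeries.X ^ 2) * v * (2 * (T : PowerSeries R)
            + PowerSeries.X ^ (M + 1) * v))) := Dvd.intro _ rfl
    rw [PowerSeries.X_pow_dvd_iff] at h6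
    exact h6 d hd
  obtain ⟨H, hH⟩ := h4
  exact ⟨H, hH⟩

theorem IT : IT_stmt := by
  intro R _ h2 A B y w ψ u M hy hw hψ hu hu2
  obtain ⟨H, hH⟩ := IT_poly A B y w M hy hw
  have hw0 : PowerSeries.constantCoeff w = 1 := by
    have h := congrArg PowerSeries.constantCoeff hw
    rw [map_mul, hy.one, mul_one, map_one] at h
    exact h
  obtain ⟨ψ1, hψ1⟩ : (PowerSeries.X : PowerSeries R) ∣ ψ := PowerSeries.X_dvd_iff.mpr hψ
  set S : PowerSeries R := ∑ j ∈ range (M + 1), PowerSeries.C (PowerSeries.coeff j w) * ψ ^ j with hS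
  have h3 := congrArg (aeval ψ) hH
  have hTa : aeval ψ (∑ j ∈ range (M + 1), C (PowerSeries.coeff j w) * X ^ j : R[X]) = S := by
    rw [map_sum, hS]
    apply sum_congr rfl
    intro j _
    rw [map_mul, map_pow, aeval_X, aeval_C]
    rfl
  rw [map_sub, map_mul, map_pow, hTa, map_one, map_add, map_add, map_one, map_mul, map_mul, map_pow,
    aeval_C, aeval_C, aeval_X, map_mul, map_pow, aeval_X] at h3
  have h4 : (1 + PowerSeries.C A * ψ + PowerSeries.C B * ψ ^ 2) * S ^ 2 - 1
      = ψ ^ (M + 1) * aeval ψ H := h3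
  rw [← hu2] at h4
  have h5 : PowerSeries.constantCoeff S = 1 := by
    rw [hS, map_sum, Finset.sum_range_succ']
    have : ∀ i ∈ range M, PowerSeries.constantCoeff
        (PowerSeries.C (PowerSeries.coeff (i + 1) w) * ψ ^ (i + 1)) = 0 := by
      intro i _
      rw [map_mul, map_pow, hψ, zero_pow (by omega), mul_zero]
    rw [Finset.sum_eq_zero this]
    simp [hw0]
  have h6 : IsUnit (u * S + 1) := by
    rw [PowerSeries.isUnit_iff_constantCoeff, map_add, map_mul, hu, h5, map_one]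
    norm_num
    exact h2
  obtain ⟨z, hz⟩ := h6.exists_left_inv
  refine ⟨ψ1 ^ (M + 1) * aeval ψ H * z, ?_⟩
  have h7 : (u * S - 1) * (u * S + 1) = PowerSeries.X ^ (M + 1) * (ψ1 ^ (M + 1) * aeval ψ H) := by
    have : (u * S - 1) * (u * S + 1) = u ^ 2 * S ^ 2 - 1 := by ring
    rw [this, h4]
    conv_lhs => rw [hψ1]
    rw [mul_pow, mul_assoc]
    rw [← hψ1]
  have h8 : u * S - 1 = PowerSeries.X ^ (M + 1) * (ψ1 ^ (M + 1) * aeval ψ H * z) := by
    calc u * S - 1 = (u * S - 1) * (z * (u * S + 1)) := by rw [hz, mul_one]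
      _ = ((u * S - 1) * (u * S + 1)) * z := by ring
      _ = _ := by rw [h7]; ring
  linear_combination h8

end Pool.Agent.helper60.DB
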