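import Pool.Agent.helper60.DB.SpecF

/-!
# Rows bf:IZ, bf:FR, bf:LR
-/

namespace Pool.Agent.helper60.DB

open Polynomial

theorem IZ : IZ_stmt := by
  intro R k _ _ _ _ p hp _ q hl
  have h1 : ∀ n : ℤ, q (n : R) = 0 ↔ (p : ℤ) ∣ n := by
    intro n
    rw [map_intCast]
    exact CharP.intCast_eq_zero_iff k p n
  refine ⟨h1, ?_⟩
  intro n ⟨r, hr⟩
  have hp0 : (p : R) ≠ 0 := by
    exact_mod_cast hp.out.ne_zero
  have h2 : q (n : R) = 0 := by
    rw [hl.ker, hr]
    exact ⟨p * r, by ring⟩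
  obtain ⟨m, rfl⟩ := (h1 n).mp h2
  have h3 : (m : R) = p * r := by
    apply mul_left_cancel₀ hp0
    push_cast at hr
    rw [hr]
    ring
  have h4 : q (m : R) = 0 := by
    rw [hl.ker, h3]
    exact ⟨r, rfl⟩
  obtain ⟨m', rfl⟩ := (h1 m).mp h4
  exact ⟨m', by ring⟩

theorem FR : FR_stmt := by
  intro k _ p hp _ h5 n t ht
  have hodd : p = 2 * (p / 2) + 1 := by
    have := hp.out.eq_two_or_odd
    omega
  have h1 : ((legendreSym p n : ℤ) : k) = (n : k) ^ (p / 2) := by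
    have h2 := legendreSym.eq_pow p n
    have h3 := congrArg (ZMod.castHom (dvd_refl p) k) h2
    rw [map_pow, map_intCast, map_intCast] at h3
    exact h3
  rw [h1, ← ht]
  calc t ^ p = t ^ (2 * (p / 2) + 1) := by rw [← hodd]
    _ = (t ^ 2) ^ (p / 2) * t := by rw [pow_succ, pow_mul]

theorem LR (h1 : M1_stmt) (h2 : MA_stmt) : LR_stmt := by
  intro R _ _ _ A' B' μ ν y hμ hν a b
  have hadd : ∀ x z : R, RP y A' B' x → RP y A' B' z → RP y A' B' (x + z) := by
    rintro x z ⟨g1, u1, m1⟩ ⟨g2, u2, m2⟩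
    obtain ⟨g3, u3, m3, -, -⟩ := h2 R A' B' x z y g1 u1 g2 u2 m1 m2
    exact ⟨g3, u3, m3⟩
  have hzero : RP y A' B' (0 : R) := ⟨0, 1, (h1 R A' B' 0 y 0 1).2.1⟩
  have hneg : ∀ x : R, RP y A' B' x → RP y A' B' (-x) := by
    rintro x ⟨g, u, m⟩
    exact ⟨-g, u, (h1 R A' B' x y g u).2.2 m⟩
  have hnat : ∀ (n : ℕ) (x : R), RP y A' B' x → RP y A' B' ((n : R) * x) := by
    intro n x hx
    induction n with
    | zero => simpa using hzero
    | succ n ih =>
      have := hadd _ _ ih hx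
      have e : ((n + 1 : ℕ) : R) * x = n * x + x := by push_cast; ring
      rw [e]
      exact this
  have hint : ∀ (n : ℤ) (x : R), RP y A' B' x → RP y A' B' ((n : R) * x) := by
    intro n x hx
    obtain ⟨m, rfl | rfl⟩ := n.eq_nat_or_neg
    · have := hnat m x hx
      exact_mod_cast this
    · have := hneg _ (hnat m x hx)
      have e : (((-(m : ℤ)) : ℤ) : R) * x = -((m : R) * x) := by push_cast; ring
      rw [e]
      exact this
  exact hadd _ _ (hint a μ hμ) (hint b ν hν)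

end Pool.Agent.helper60.DB
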