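import Pool.Agent.helper60.DB.SpecF
import Mathlib.RingTheory.WittVector.Complete
import Mathlib.RingTheory.WittVector.DiscreteValuationRing
import Mathlib.RingTheory.WittVector.Domain

/-!
# Row bf:WT
-/

namespace Pool.Agent.helper60.DB

open Polynomial

theorem WT_sqrt {R k : Type} [CommRing R] [Field k] (p : ℕ) (q : R →+* k) (hl : Loc p q)
    [HenselianRing R (Ideal.span {(p : R)})] (h2 : q 2 ≠ 0)
    (hs : Function.Surjective q) (hsq : ∀ a : k, ∃ b : k, b ^ 2 = a) (a : R) (ha : q a ≠ 0) :
    ∃ b : R, b ^ 2 = a := by
  obtain ⟨c, hc⟩ := hsq (q a)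
  obtain ⟨a0, ha0⟩ := hs c
  have hc0 : q a0 ≠ 0 := by
    intro h
    apply ha
    rw [← hc, ← ha0, h]
    norm_num
  have hmem : (X ^ 2 - C a : R[X]).eval a0 ∈ Ideal.span {(p : R)} := by
    rw [Ideal.mem_span_singleton, ← hl.ker]
    simp [ha0, hc]
  have hder : (X ^ 2 - C a : R[X]).derivative.eval a0 = 2 * a0 := by
    simp
    ring
  have hu : IsUnit (Ideal.Quotient.mk (Ideal.span {(p : R)})
      ((X ^ 2 - C a : R[X]).derivative.eval a0)) := by
    rw [hder]
    exact (hl.unit _ (by rw [map_mul]; exact mul_ne_zero h2 hc0)).map _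
  obtain ⟨b, hb, -⟩ := HenselianRing.is_henselian (I := Ideal.span {(p : R)}) (X ^ 2 - C a)
    (monic_X_pow_sub_C a (by norm_num)) a0 hmem hu
  refine ⟨b, ?_⟩
  rw [IsRoot.def] at hb
  simp at hb
  linear_combination hb

theorem WT : WT_stmt := by
  intro p hp h5
  let k := AlgebraicClosure (ZMod p)
  haveI : CharP k p := inferInstance
  haveI : PerfectRing k p := inferInstance
  let R := WittVector p k
  let q : R →+* k := WittVector.constantCoeff
  have hl : Loc p q := by
    refine ⟨?_, ?_, ?_, ?_⟩
    · intro a
      rw [← Ideal.mem_span_singleton, WittVector.mem_span_p_iff_coeff_zero_eq_zero]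
      rfl
    · intro a ha
      exact WittVector.isUnit_of_coeff_zero_ne_zero a ha
    · intro a ha
      obtain ⟨n, c, hc, h⟩ := WittVector.exists_eq_pow_p_mul a ha
      exact ⟨n, c, h, hc⟩
    · intro a
      obtain ⟨b, hb⟩ := IsAlgClosed.exists_pow_nat_eq a hp.out.pos
      exact ⟨b, hb⟩
  have hchar : CharZero R := by
    have hp0 : (p : R) ≠ 0 := WittVector.p_nonzero p k
    have key : ∀ n : ℕ, n ≠ 0 → (n : R) ≠ 0 := by
      intro n
      induction n using Nat.strong_induction_on with
      | _ n ih =>
        intro hn h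
        have h1 : (n : k) = 0 := by
          have h3 := congrArg q h
          rw [map_natCast, map_zero] at h3
          exact h3
        rw [CharP.cast_eq_zero_iff k p] at h1
        obtain ⟨c, rfl⟩ := h1
        have hc : c ≠ 0 := by
          rintro rfl
          exact hn (by simp)
        have hlt : c < p * c := by
          have := hp.out.one_lt
          nlinarith [Nat.pos_of_ne_zero hc]
        have := ih c hlt hc
        rw [Nat.cast_mul] at h
        rcases mul_eq_zero.mp h with h2 | h2
        · exact hp0 h2
        · exact this h2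
    exact ⟨fun a b hab => by
      rcases Nat.lt_trichotomy a b with hlt | he | hgt
      · exfalso
        apply key (b - a) (by omega)
        rw [Nat.cast_sub hlt.le, hab, sub_self]
      · exact he
      · exfalso
        apply key (a - b) (by omega)
        rw [Nat.cast_sub hgt.le, hab, sub_self]⟩
  have h2 : q 2 ≠ 0 := by
    rw [map_ofNat]
    have : ((2 : ℕ) : k) ≠ 0 := by
      rw [Ne, CharP.cast_eq_zero_iff k p]
      intro h
      have := Nat.le_of_dvd (by norm_num) h
      omega
    exact_mod_cast this
  haveI : HenselianRing R (Ideal.span {(p : R)}) := inferInstance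
  refine ⟨R, k, inferInstance, inferInstance, hchar, inferInstance, inferInstance, q, hl, ?_⟩
  intro a ha
  exact WT_sqrt p q hl h2 (WittVector.constantCoeff_surjective p)
    (fun a => IsAlgClosed.exists_pow_nat_eq a (by norm_num)) a ha

end Pool.Agent.helper60.DB
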