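import Pool.Agent.helper49.DB.LL
import Pool.Agent.helper43.DB.LE
import Pool.Agent.helper23.DB.LT
import Pool.Agent.helper65.DB.LF
import Pool.Agent.helper2.DB.CU
import Pool.Agent.helper87.DB.SC
import Pool.Agent.helper46.DB.LS
import Pool.Agent.helper96.DB.DV
import Pool.Agent.helper82.DB.ID
import Pool.Agent.helper28.DB.CC
import Pool.Agent.helper74.DB.IE
import Pool.Agent.helper94.DB.LG
import Pool.Agent.helper88.DB.MD
import Pool.Agent.helper44.DB.M1
import Pool.Agent.helper33.DB.MA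
import Pool.Agent.helper35.DB.MU
import Pool.Agent.helper51.DB.MP
import Pool.Agent.helper45.DB.MO
import Pool.Agent.helper58.DB.M2
import Pool.Agent.helper82.DB.MM
import Pool.Agent.helper13.DB.RR
import Pool.Agent.helper70.DB.TA
import Pool.Agent.helper22.DB.TP
import Pool.Agent.helper45.DB.HU
import Pool.Agent.helper41.DB.HE
import Pool.Agent.helper9.DB.TC
import Pool.Agent.helper28.DB.ZE
import Pool.Agent.helper71.DB.TF
import Pool.Agent.helper15.DB.TE
import Pool.Agent.helper98.DB.PL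
import Pool.Agent.helper78.DB.OO
import Pool.Agent.helper42.DB.O2
import Pool.Agent.helper39.DB.OC
import Pool.Agent.helper67.DB.Q0
import Pool.Agent.helper29.DB.Q1
import Pool.Agent.helper30.DB.Q2
import Pool.Agent.helper24.DB.LP
import Pool.Agent.helper91.DB.LT2
import Pool.Agent.helper56.DB.RG
import Pool.Agent.helper14.DB.PV
import Pool.Agent.helper42.DB.PR
import Pool.Agent.helper13.DB.F0
import Pool.Agent.helper36.DB.FA
import Pool.Agent.helper18.DB.FP
import Pool.Agent.helper9.DB.SF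
import Pool.Agent.helper39.DB.SQ
import Pool.Agent.helper83.DB.MR
import Pool.Agent.helper79.DB.FM
import Pool.Agent.helper29.DB.YE
import Pool.Agent.helper60.DB.IT
import Pool.Agent.helper78.DB.XJ
import Pool.Agent.helper95.DB.CO
import Pool.Agent.helper82.DB.XD
import Pool.Agent.helper10.DB.C1
import Pool.Agent.helper88.DB.LC
import Pool.Agent.helper41.DB.RE
import Pool.Agent.helper12.DB.RV
import Pool.Agent.helper75.DB.SR
import Pool.Agent.helper49.DB.UQ
import Pool.Agent.helper98.DB.CR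
import Pool.Agent.helper61.DB.CS
import Pool.Agent.helper32.DB.CV
import Pool.Agent.helper60.DB.WT
import Pool.Agent.helper60.DB.IZ
import Pool.Agent.helper60.DB.GP
import Pool.Agent.helper85.DB.EP
import Pool.Agent.helper74.DB.KC
import Pool.Agent.helper14.DB.PC
import Pool.Agent.helper79.DB.TW
import Pool.Agent.helper40.DB.TT
import Pool.Agent.helper13.DB.L2
import Pool.Agent.helper22.DB.L5
import Pool.Agent.helper75.DB.EX
import Pool.Agent.helper2.DB.BD
import Pool.Agent.helper31.DB.BE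
import Pool.Agent.helper17.DB.BH
import Pool.Agent.helper9.DB.BG
import Pool.Agent.helper64.DB.BP
import Pool.Agent.helper36.DB.BQ
import Pool.Agent.helper17.DB.BZ
import Pool.Agent.helper67.DB.CD
import Pool.Agent.helper64.DB.CE
import Pool.Agent.helper67.DB.CH
import Pool.Agent.helper29.DB.CG
import Pool.Agent.helper50.DB.CP
import Pool.Agent.helper18.DB.CQ
import Pool.Agent.helper52.DB.ND
import Pool.Agent.helper9.DB.NE
import Pool.Agent.helper64.DB.NH
import Pool.Agent.helper88.DB.NG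
import Pool.Agent.helper42.DB.NP
import Pool.Agent.helper31.DB.NQ
import Pool.Agent.helper87.DB.CZ
import Pool.Agent.helper60.DB.FINB
import Pool.Agent.helper60.DA.ALLA

/-!
# All rows of the full parts (b) and (c)
-/

namespace Pool.Agent.helper60.DB

open Pool.Agent.helper60.DK (CongrSq D TR1 TR2 PAR)

theorem xLL : LL_stmt := LL

theorem xLE : LE_stmt := LE

theorem xLT : LT_stmt := LT

theorem xLF : LF_stmt := LF

theorem xCU : CU_stmt := CU

theorem xSC : SC_stmt := SC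

theorem xLS : LS_stmt := LS DA.xST

theorem xDV : DV_stmt := DV xSC

theorem xID : ID_stmt := ID xLL xLE xLT xLF xCU xLS xDV

theorem xCC : CC_stmt := CC

theorem xIE : IE_stmt := IE xID xCC

theorem xLG : LG_stmt := LG

theorem xMD : MD_stmt := MD

theorem xM1 : M1_stmt := M1

theorem xMA : MA_stmt := MA xMD

theorem xMU : MU_stmt := MU

theorem xMP : MP_stmt := MP xM1 xMA xMU

theorem xMO : MO_stmt := MO

theorem xM2 : M2_stmt := M2 xMD

theorem xMM : MM_stmt := MM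

theorem xRR : RR_stmt := RR

theorem xTA : TA_stmt := TA xRR

theorem xTP : TP_stmt := TP xRR

theorem xHU : HU_stmt := HU

theorem xHE : HE_stmt := HE

theorem xTC : TC_stmt := TC

theorem xZE : ZE_stmt := ZE

theorem xTF : TF_stmt := TF xZE

theorem xTE : TE_stmt := TE

theorem xPL : PL_stmt := PL xTC xTF xTE

theorem xOO : OO_stmt := OO xRR xMO

theorem xO2 : O2_stmt := O2 xRR xM2

theorem xOC : OC_stmt := OC

theorem xQ0 : Q0_stmt := Q0

theorem xQ1 : Q1_stmt := Q1 xQ0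

theorem xQ2 : Q2_stmt := Q2 xQ0

theorem xLP : LP_stmt := LP xM1 xMA xMU xMP xTA xTP xHU xHE xPL xQ1

theorem xLT2 : LT2_stmt := LT2 xM1 xMA xMU xMP xTA xTP xHU xHE xPL xQ2 xLP

theorem xRG : RG_stmt := RG xHU

theorem xPV : PV_stmt := PV

theorem xPR : PR_stmt := PR

theorem xF0 : F0_stmt := F0 xPV

theorem xFA : FA_stmt := FA xPV xPR xF0

theorem xFP : FP_stmt := FP

theorem xSF : SF_stmt := SF

theorem xSQ : SQ_stmt := SQ xSF

theorem xMR : MR_stmt := MR

theorem xFM : FM_stmt := FM xPV xFP xSQ xMR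

theorem xYE : YE_stmt := YE

theorem xIT : IT_stmt := IT

theorem xXJ : XJ_stmt := XJ

theorem xCO : CO_stmt := CO xIT

theorem xXD : XD_stmt := XD xPV xXJ

theorem xC1 : C1_stmt := C1 xYE xCO xXD

theorem xLC : LC_stmt := LC

theorem xRE : RE_stmt := RE

theorem xRV : RV_stmt := RV xRE

theorem xSR : SR_stmt := SR

theorem xUQ : UQ_stmt := UQ

theorem xCR : CR_stmt := CR xLC xRE xRV xSR xUQ

theorem xCS : CS_stmt := CS xPV xSF xMR

theorem xCV : CV_stmt := CV xFA xFM xMR xC1 xCR xCS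

theorem xWT : WT_stmt := WT

theorem xIZ : IZ_stmt := IZ

theorem xFR : FR_stmt := FR

theorem xLR : LR_stmt := LR xM1 xMA

theorem xGP : GP_stmt := GP xMU xMM xRG xCV

theorem xEP : EP_stmt := EP

theorem xKC : KC_stmt := KC xGP xEP

theorem xPC : PC_stmt := PC xM1 xMM xLP xLR xKC

theorem xTW : TW_stmt := TW xMM xLT2 xLR xKC

theorem xTT : TT_stmt := TT xIE xLG

theorem xL2 : L2_stmt := L2

theorem xL5 : L5_stmt := L5

theorem xEX : EX_stmt := EX

theorem xBD : BD_stmt := BD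

theorem xBE : BE_stmt := BE xM1 xMO xM2 xMM xOO xO2 xOC xBD

theorem xBH : BH_stmt := BH xIZ xPC xBE

theorem xBG : BG_stmt := BG xIZ xTW xBE

theorem xBP : BP_stmt := BP xIZ xYE xTT xBH

theorem xBQ : BQ_stmt := BQ xIZ xYE xTT xBG

theorem xBZ : BZ_stmt := BZ xWT xIZ xFR xL2 xBP xBQ

theorem xCD : CD_stmt := CD

theorem xCE : CE_stmt := CE xM1 xMO xMM xOO xOC xCD

theorem xCH : CH_stmt := CH xIZ xPC xCE

theorem xCG : CG_stmt := CG xIZ xTW xCE

theorem xCP : CP_stmt := CP xIZ xYE xTT xCH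

theorem xCQ : CQ_stmt := CQ xIZ xYE xTT xCG

theorem xND : ND_stmt := ND

theorem xNE : NE_stmt := NE xM1 xMO xMM xOO xOC xND

theorem xNH : NH_stmt := NH xIZ xPC xNE

theorem xNG : NG_stmt := NG xIZ xTW xNE

theorem xNP : NP_stmt := NP xIZ xYE xTT xNH

theorem xNQ : NQ_stmt := NQ xIZ xYE xTT xNG

theorem xCZ : CZ_stmt := CZ xWT xIZ xFR xL5 xCP xCQ xNP xNQ

/-- part (b) for all primes `p > 3` -/
theorem fullB {p : ℕ} [Fact p.Prime] (h3 : 3 < p) :
    (∀ x y : ℤ, (p : ℤ) = x ^ 2 + 6 * y ^ 2 →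
      CongrSq p ((legendreSym p (-1) : ℚ) * ∑ k ∈ Finset.range p, (-1) ^ k * D k (1 / 2) ^ 3)
        (4 * (x : ℚ) ^ 2 - 2 * (p : ℚ))) ∧
    (∀ x y : ℤ, (p : ℤ) = 2 * x ^ 2 + 3 * y ^ 2 →
      CongrSq p ((legendreSym p (-1) : ℚ) * ∑ k ∈ Finset.range p, (-1) ^ k * D k (1 / 2) ^ 3)
        (8 * (x : ℚ) ^ 2 - 2 * (p : ℚ))) ∧
    (legendreSym p (-6) = -1 →
      CongrSq p ((legendreSym p (-1) : ℚ) * ∑ k ∈ Finset.range p, (-1) ^ k * D k (1 / 2) ^ 3) 0) := by
  refine ⟨fun x y h => (splitB TR1 TR2 DA.xST xL2 xBZ h3 x y).1 h,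
    fun x y h => (splitB TR1 TR2 DA.xST xL2 xBZ h3 x y).2 h, fun h => ?_⟩
  have h1 := DA.congrSq_int_mul (legendreSym p (-1)) (DK.inertB p h3 h)
  rw [mul_zero] at h1
  exact h1

/-- part (c) for all primes `p > 3`, `p ≠ 5` -/
theorem fullC {p : ℕ} [hp : Fact p.Prime] (h3 : 3 < p) (h5 : p ≠ 5) :
    CongrSq p (∑ k ∈ Finset.range p, D k 3 ^ 3)
      ((legendreSym p (-5) : ℚ) * ∑ k ∈ Finset.range p, (-1) ^ k * D k (-1 / 16) ^ 3) ∧
    (∀ x y : ℤ, (p : ℤ) = x ^ 2 + 15 * y ^ 2 →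
      CongrSq p (∑ k ∈ Finset.range p, D k 3 ^ 3) (4 * (x : ℚ) ^ 2 - 2 * (p : ℚ))) ∧
    (∀ x y : ℤ, (p : ℤ) = 3 * x ^ 2 + 5 * y ^ 2 →
      CongrSq p (∑ k ∈ Finset.range p, D k 3 ^ 3) (12 * (x : ℚ) ^ 2 - 2 * (p : ℚ))) ∧
    (jacobiSym (p : ℤ) 15 = -1 → CongrSq p (∑ k ∈ Finset.range p, D k 3 ^ 3) 0) := by
  have h7 : 7 ≤ p := by
    have h4 : p ≠ 4 := by
      rintro rfl
      exact absurd hp.out (by norm_num)
    have h6 : p ≠ 6 := by
      rintro rfl
      exact absurd hp.out (by norm_num)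
    omega
  exact ⟨chainC TR1 TR2 PAR DA.xST xL5 xCZ xEX (DK.P4 DK.WF DK.p4y) (DK.P16 DK.WF DK.me DK.p4y) h7,
    fun x y h => ((splitC TR1 TR2 PAR DA.xST xL5 xCZ h7 x y).1 h).1,
    fun x y h => ((splitC TR1 TR2 PAR DA.xST xL5 xCZ h7 x y).2 h).1,
    fun h => (DK.inertC p h3 h).1⟩

end Pool.Agent.helper60.DB
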