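import Pool.Agent.helper60.DB.SpecM

/-!
# Rows bc:* (MP_fb2c2a_nt, parts (b), (c)): the theorem of Coster and van Hamme, algebraic proof

`R` is a local domain of characteristic 0 whose maximal ideal is generated by the prime `p = 2m+1 ≥ 5`
(`Loc`: `q : R → k` is the reduction map, `k` is perfect of characteristic `p`).  `(g, u)` is a pair of multiplier
`π`, `q π = 0`, `π α = p`, from `(A, B)` to `(A', B')`, and `g` is a rational function of degree `≤ m`.
Result (`CV`): the coefficient `w_m` of `X^m` in `1/√(1+AX+BX²)` satisfies `w_m ≡ α ε (mod p²)` with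
`B' ε⁴ = B^p` and `q(A') q(ε)² = q(A)^p`.

RULES.  Every row is a `Prop` below; please prove `theorem Pool.Agent.helper60.DB.<ROW> (h : <OTHER>_stmt) ... :
<ROW>_stmt` in `Pool/Agent/<seat>/DB/<ROW>.lean` (import this file; only the rows named in the docstring may be
hypotheses, in this order), land it, lock note DONE, one line to helper60.  No `convert`/`congr!`/`native_decide`,
no double quotes.  Auxiliary lemmas: names beginning with the row name.
-/

namespace Pool.Agent.helper60.DB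

open Polynomial Finset

/-- `R` local with maximal ideal `(p)`, reduction map `q` to the perfect field `k` -/
structure Loc {R k : Type} [CommRing R] [Field k] (p : ℕ) (q : R →+* k) : Prop where
  ker : ∀ a : R, q a = 0 ↔ (p : R) ∣ a
  unit : ∀ a : R, q a ≠ 0 → IsUnit a
  val : ∀ a : R, a ≠ 0 → ∃ (n : ℕ) (c : R), a = (p : R) ^ n * c ∧ q c ≠ 0
  root : ∀ a : k, ∃ b : k, b ^ p = a

section
variable {R : Type*} [CommRing R]

/-- `ND + 2X(N'D - ND')` -/
noncomputable def Mn (N D : R[X]) : R[X] := N * D + 2 * X * (derivative N * D - N * derivative D)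

/-- `1 + AX + BX²` -/
noncomputable def qf (A B : R) : R[X] := 1 + C A * X + C B * X ^ 2

/-- `1 + AX + BX²` as a power series -/
noncomputable def qs (A B : R) : PowerSeries R :=
  1 + PowerSeries.C A * PowerSeries.X + PowerSeries.C B * PowerSeries.X ^ 2

/-- `f ↦ (BX)^m f(1/(BX))` -/
noncomputable def ht (m : ℕ) (B : R) (f : R[X]) : R[X] := (reflect m f).comp (C B * X)

end

/-! ### divisibility by `p`, Fatou's lemma -/

/-- ROW bc:PV (short). Divisibility by `p` coefficientwise. -/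
def PV_stmt : Prop := ∀ (R k : Type) [CommRing R] [Field k] (p : ℕ) (q : R →+* k), Loc p q →
  (∀ f : PowerSeries R, PowerSeries.map q f = 0 ↔ ∃ f', f = PowerSeries.C (p : R) * f') ∧
  (∀ f : R[X], f.map q = 0 ↔ ∃ f' : R[X], f = C (p : R) * f')

/-- ROW bc:PR (medium).  Primitive multiple: clear denominators (`IsLocalization.integerNormalization` or
`∃ b ≠ 0, b D ∈ R[X]`), then divide by the highest power of `p` dividing all the (finitely many) coefficients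
(`Loc.val`; strong induction on the minimum of the valuations, or on the valuation of one nonzero coefficient,
with `PV`-type division). -/
def PR_stmt : Prop := ∀ (R k : Type) [CommRing R] [IsDomain R] [CharZero R] [Field k] (p : ℕ) [Fact p.Prime]
  (q : R →+* k), Loc p q → ∀ D : (FractionRing R)[X], D ≠ 0 → ∃ (c : FractionRing R) (D' : R[X]), c ≠ 0 ∧
    D'.map (algebraMap R (FractionRing R)) = C c * D ∧ D'.map q ≠ 0

/-- ROW bc:F0 (short, medium; hyp `PV_stmt`).  Induction on `j`: for `j = 0` look at the constant coefficient. For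
`j + 1`: modulo `p` the product is 0 and `D` is not, so `w = p w'` (`k⟦X⟧` is a domain); cancel `p` (`R⟦X⟧` is a
domain). -/
def F0_stmt : Prop := ∀ (R k : Type) [CommRing R] [IsDomain R] [CharZero R] [Field k] (p : ℕ) [Fact p.Prime]
  (q : R →+* k), Loc p q → ∀ (D : R[X]) (w : PowerSeries R) (j : ℕ) (c : R), D.map q ≠ 0 → q c ≠ 0 →
    (D : PowerSeries R) * w = PowerSeries.C ((p : R) ^ j * c) → q (D.coeff 0) ≠ 0

/-- ROW bc:FA (medium; hyps `PV_stmt PR_stmt F0_stmt`).  Fatou.  Over `K` divide `N`, `D` by their gcd (coprime,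
degrees do not increase). Replace `D` by its primitive multiple `D' ∈ R[X]` (same multiple of `N`); `N' = D' g` has
coefficients in `R` (`Polynomial` with these coefficients).  Bezout over `K`, denominators cleared:
`a N' + b D' = r`, `a, b ∈ R[X]`, `0 ≠ r = p^j c`; so `D' (a g + b) = r` and F0: `D'.coeff 0` is a unit; divide. -/
def FA_stmt : Prop := ∀ (R k : Type) [CommRing R] [IsDomain R] [CharZero R] [Field k] (p : ℕ) [Fact p.Prime]
  (q : R →+* k), Loc p q → ∀ (g : PowerSeries R) (m : ℕ) (N D : (FractionRing R)[X]), D ≠ 0 →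
    N.natDegree ≤ m → D.natDegree ≤ m →
    (D : PowerSeries (FractionRing R)) * PowerSeries.map (algebraMap R (FractionRing R)) g
      = (N : PowerSeries (FractionRing R)) →
    ∃ N' D' : R[X], D'.coeff 0 = 1 ∧ N'.natDegree ≤ m ∧ D'.natDegree ≤ m ∧
      (D' : PowerSeries R) * g = (N' : PowerSeries R) ∧
      IsCoprime (N'.map (algebraMap R (FractionRing R))) (D'.map (algebraMap R (FractionRing R)))

/-! ### modulo `p` -/

/-- ROW bc:FP (medium).  `(1+2j) f_j = 0`, so `f_j = 0` unless `j ≡ m (mod p)`.  `N_j = 0` for `j < m`, `N_m = f_m`,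
`f_m ≠ 0` (otherwise `N = 0`, `f = 0`).  For `1 ≤ i ≤ m` the coefficient of `X^(m+i)` in `D f` is
`D_i f_m` (`0 ≤ l ≤ m`, `m+i-l ≡ m` forces `l = i`) and it is `0`. -/
def FP_stmt : Prop := ∀ (k : Type) [Field k] (p m : ℕ) [Fact p.Prime] [CharP k p], p = 2 * m + 1 →
  ∀ (f : PowerSeries k) (N D : k[X]), D.coeff 0 = 1 → N.natDegree ≤ m → D.natDegree ≤ m →
    (D : PowerSeries k) * f = (N : PowerSeries k) → f + EE f = 0 → f ≠ 0 →
    ∃ e : k, e ≠ 0 ∧ N = C e * X ^ m ∧ D = 1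

/-- ROW bc:SF (short). `4 B f = f'² - (A² - 4B)`: `f` is separable. -/
def SF_stmt : Prop := ∀ (k : Type) [Field k] (A B : k), B ≠ 0 → A ^ 2 ≠ 4 * B → Squarefree (qf A B) ∧
  (qf A B).natDegree = 2

/-- ROW bc:SQ (short, medium; hyp `SF_stmt`).  `f ∣ Q²`, so `f ∣ Q = f Q1`, `P² = f Q1²`, `f ∣ P`, ...: infinite descent
on the degree of `P`. -/
def SQ_stmt : Prop := ∀ (k : Type) [Field k] (A B : k) (P Q : k[X]), B ≠ 0 → A ^ 2 ≠ 4 * B →
  P ^ 2 * qf A B = Q ^ 2 → P = 0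

/-- ROW bc:MR (short, medium).  `EE` applied to `D g = N`: `D² (g + EE g) = Mn N D`.  Square `y (g + EE g) = π u`,
multiply by `D⁴`, use `u²` and `D² g² = N²` (`Polynomial.coe_injective`). -/
def MR_stmt : Prop := ∀ (R : Type) [CommRing R] [IsDomain R] (g : PowerSeries R) (N D : R[X]),
  (D : PowerSeries R) * g = (N : PowerSeries R) →
  (D : PowerSeries R) ^ 2 * (g + EE g) = (Mn N D : R[X]) ∧
  (∀ (A B A' B' π : R) (y u : PowerSeries R), Yy A B y → Ml A' B' y π g u →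
    qf A B * Mn N D ^ 2 = C (π ^ 2) * (D ^ 4 + C A' * X * N ^ 2 * D ^ 2 + C B' * X ^ 2 * N ^ 4))

/-- ROW bc:FM (medium; hyps `PV_stmt FP_stmt SQ_stmt MR_stmt`).  `f = map q g` satisfies `f + EE f = 0` (`q π = 0`).
If `f ≠ 0`: FP.  If `f = 0`: `g = p g2`, `α y (g2 + EE g2) = u` (multiply the `ode` by `α`, cancel `p`),
`N = p N2`, `D g2 = N2`; modulo `p`: `u² = 1`, `u = 1`, and with `M2 = Mn N2 D` (MR over `k`):
`α y M2 = D²`, so `α² M2² (1+AX+BX²) = (D²)²`: SQ gives `α M2 = 0`, `D = 0`, contradiction. -/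
def FM_stmt : Prop := ∀ (R k : Type) [CommRing R] [IsDomain R] [CharZero R] [Field k] (p m : ℕ) [Fact p.Prime]
  [CharP k p] (q : R →+* k), Loc p q → 5 ≤ p → p = 2 * m + 1 →
  ∀ (A B A' B' π α : R) (y g u : PowerSeries R) (N D : R[X]), Yy A B y → Ml A' B' y π g u → q π = 0 →
    π * α = p → q B ≠ 0 → q (A ^ 2 - 4 * B) ≠ 0 → D.coeff 0 = 1 → N.natDegree ≤ m → D.natDegree ≤ m →
    (D : PowerSeries R) * g = (N : PowerSeries R) →
    q (N.coeff m) ≠ 0 ∧ N.map q = C (q (N.coeff m)) * X ^ m ∧ D.map q = 1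

/-! ### the congruence modulo `p²` -/

/-- ROW bc:YE (medium). Square root of a power series with constant coefficient 1 if `2` is a unit: define the
coefficients recursively, `2 y_n = f_n - ∑_(0<i<n) y_i y_(n-i)`; `w` is the inverse. -/
def YE_stmt : Prop := ∀ (R : Type) [CommRing R], IsUnit (2 : R) → ∀ A B : R, ∃ y w : PowerSeries R,
  Yy A B y ∧ w * y = 1 ∧ PowerSeries.constantCoeff w = 1

/-- ROW bc:IT (medium).  `T = ∑_(j≤M) w_j X^j` (polynomial): `(1+AX+BX²) T² = 1 + X^(M+1) H` (since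
`(1+AX+BX²) w² = 1`); at `ψ`: `(u T(ψ) - 1)(u T(ψ) + 1) = ψ^(M+1) H(ψ)`, `X^(M+1) ∣ ψ^(M+1)` and `u T(ψ) + 1` is a
unit (constant coefficient `2`). -/
def IT_stmt : Prop := ∀ (R : Type) [CommRing R], IsUnit (2 : R) → ∀ (A B : R) (y w ψ u : PowerSeries R) (M : ℕ),
  Yy A B y → w * y = 1 → PowerSeries.constantCoeff ψ = 0 → PowerSeries.constantCoeff u = 1 →
  u ^ 2 = 1 + PowerSeries.C A * ψ + PowerSeries.C B * ψ ^ 2 →
  ∃ r : PowerSeries R, u * (∑ j ∈ range (M + 1), PowerSeries.C (PowerSeries.coeff j w) * ψ ^ j)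
    = 1 + PowerSeries.X ^ (M + 1) * r

/-- ROW bc:XJ (short).  `F = X^j g^(2j+1)`: `(2j+1) X^j g^(2j) (g + EE g) = F + EE F`. -/
def XJ_stmt : Prop := ∀ (R : Type) [CommRing R] (g : PowerSeries R) (j m : ℕ), j ≤ m →
  (2 * (j : R) + 1) * PowerSeries.coeff m (PowerSeries.X ^ j * g ^ (2 * j) * (g + EE g))
    = (2 * (m : R) + 1) * PowerSeries.coeff (m - j) (g ^ (2 * j + 1))

/-- ROW bc:CO (medium; hyp `IT_stmt`).  IT with `ψ = X g²`, `M = m`, times the `ode`: `w y (g + EE g) T(ψ) = π w u T(ψ)`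
is `(g + EE g) ∑ w'_j ψ^j = π w (1 + X^(m+1) r)`; coefficient of `X^m`. -/
def CO_stmt : Prop := ∀ (R : Type) [CommRing R], IsUnit (2 : R) → ∀ (A B A' B' π : R)
  (y w g u y' w' : PowerSeries R) (m : ℕ), Yy A B y → w * y = 1 → Yy A' B' y' → w' * y' = 1 →
  Ml A' B' y π g u → π * PowerSeries.coeff m w
    = ∑ j ∈ range (m + 1), PowerSeries.coeff j w'
        * PowerSeries.coeff m (PowerSeries.X ^ j * g ^ (2 * j) * (g + EE g))

/-- ROW bc:XD (medium; hyps `PV_stmt XJ_stmt`).  `map q g = C e X^m` (as `map q D = 1`), so `g = p g1 + X^m g2`, and for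
`1 ≤ j ≤ m` the coefficient of `X^(m-j)` in `g^(2j+1)` is divisible by `p^(2j+1)`; XJ: if `2j+1 < p` then `2j+1` is a
unit; if `j = m`, cancel `p`.  For `j = 0`: the coefficient of `X^m` in `g + EE g` is `p g_m`, and
`g_m + ∑_(i≥1) D_i g_(m-i) = N_m`, with all `D_i`, `g_(m-i)` divisible by `p`. -/
def XD_stmt : Prop := ∀ (R k : Type) [CommRing R] [IsDomain R] [CharZero R] [Field k] (p m : ℕ) [Fact p.Prime]
  [CharP k p] (q : R →+* k), Loc p q → 5 ≤ p → p = 2 * m + 1 → ∀ (g : PowerSeries R) (N D : R[X]),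
    D.coeff 0 = 1 → (D : PowerSeries R) * g = (N : PowerSeries R) →
    N.map q = C (q (N.coeff m)) * X ^ m → D.map q = 1 →
    (∀ j : ℕ, 1 ≤ j → j ≤ m →
      (p : R) ^ 3 ∣ PowerSeries.coeff m (PowerSeries.X ^ j * g ^ (2 * j) * (g + EE g))) ∧
    (p : R) ^ 3 ∣ PowerSeries.coeff m (PowerSeries.X ^ 0 * g ^ (2 * 0) * (g + EE g)) - p * N.coeff m

/-- ROW bc:C1 (short, medium; hyps `YE_stmt CO_stmt XD_stmt`).  CO times `α`:
`p w_m = α ∑ w'_j X_j ≡ α p N_m (mod p³)` (`w'_0 = 1`); cancel `p`. -/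
def C1_stmt : Prop := ∀ (R k : Type) [CommRing R] [IsDomain R] [CharZero R] [Field k] (p m : ℕ) [Fact p.Prime]
  [CharP k p] (q : R →+* k), Loc p q → 5 ≤ p → p = 2 * m + 1 →
  ∀ (A B A' B' π α : R) (y w g u : PowerSeries R) (N D : R[X]), Yy A B y → w * y = 1 → Ml A' B' y π g u →
    π * α = p → D.coeff 0 = 1 → (D : PowerSeries R) * g = (N : PowerSeries R) →
    N.map q = C (q (N.coeff m)) * X ^ m → D.map q = 1 →
    (p : R) ^ 2 ∣ PowerSeries.coeff m w - α * N.coeff m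

/-! ### the constant `ε` -/

/-- ROW bc:LC (short, medium).  Coefficients of `X^(4m+2)`: `B (ε d)² = π² B' ε⁴`, `d = D_m` (the coefficient of
`X^(2m)` in `Mn N D` is `εd + 2(mεd - εmd) = εd`). -/
def LC_stmt : Prop := ∀ (K : Type) [Field K] (A B A' B' π : K) (N D : K[X]) (m : ℕ), N.natDegree ≤ m →
  D.natDegree ≤ m → N.coeff m ≠ 0 →
  qf A B * Mn N D ^ 2 = C (π ^ 2) * (D ^ 4 + C A' * X * N ^ 2 * D ^ 2 + C B' * X ^ 2 * N ^ 4) →
  B * (D.coeff m) ^ 2 = π ^ 2 * B' * (N.coeff m) ^ 2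

/-- ROW bc:RE (medium).  For `x ≠ 0`, `t = 1/(Bx)`: `f^(x) = (Bx)^m f(t)` and
`x f^'(x) = m f^(x) - (Bx)^m t f'(t)`; coefficients: `(f^)_j = f_(m-j) B^j`. -/
def RE_stmt : Prop := ∀ (K : Type) [Field K] (B : K) (m : ℕ) (f : K[X]), B ≠ 0 → f.natDegree ≤ m →
  (ht m B f).natDegree ≤ m ∧ (∀ j ≤ m, (ht m B f).coeff j = f.coeff (m - j) * B ^ j) ∧
  ∀ x : K, x ≠ 0 → (ht m B f).eval x = (B * x) ^ m * f.eval (1 / (B * x)) ∧
    x * (derivative (ht m B f)).eval x = m * (ht m B f).eval x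
      - (B * x) ^ m * (1 / (B * x)) * (derivative f).eval (1 / (B * x))

/-- ROW bc:RV (medium; hyp `RE_stmt`).  Evaluate the hypothesis at `t = 1/(Bx)`, `x ≠ 0`, multiply by
`B² x² (Bx)^(4m)`: `(Bx)^(2m) Mn(N,D)(t) = Mn(D^,N^)(x)`.  Two polynomials which agree at all `x ≠ 0` of an infinite
field are equal. -/
def RV_stmt : Prop := ∀ (K : Type) [Field K] [CharZero K] (A B A' B' π : K) (N D : K[X]) (m : ℕ), B ≠ 0 →
  N.natDegree ≤ m → D.natDegree ≤ m →
  qf A B * Mn N D ^ 2 = C (π ^ 2) * (D ^ 4 + C A' * X * N ^ 2 * D ^ 2 + C B' * X ^ 2 * N ^ 4) →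
  C B * (qf A B * Mn (ht m B D) (ht m B N) ^ 2)
    = C (π ^ 2) * (C B' * ht m B N ^ 4 + C (A' * B) * X * ht m B D ^ 2 * ht m B N ^ 2
        + C (B ^ 2) * X ^ 2 * ht m B D ^ 4)

/-- ROW bc:SR (medium).  `ψ = κ X N²/D²` (`D(0) ≠ 0` is a unit).  `D³ ψ' = κ N Mn(N,D)`; multiply the claim by `D⁶`. -/
def SR_stmt : Prop := ∀ (K : Type) [Field K] (A B A' B' π κ : K) (N D : K[X]), D.coeff 0 ≠ 0 →
  C κ * (qf A B * Mn N D ^ 2) = C (π ^ 2) * (D ^ 4 + C (A' * κ) * X * N ^ 2 * D ^ 2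
    + C (B' * κ ^ 2) * X ^ 2 * N ^ 4) →
  ∃ ψ : PowerSeries K, (D : PowerSeries K) ^ 2 * ψ = PowerSeries.C κ * PowerSeries.X * (N : PowerSeries K) ^ 2 ∧
    PowerSeries.constantCoeff ψ = 0 ∧
    (D.coeff 0) ^ 2 * PowerSeries.coeff 1 ψ = κ * (N.coeff 0) ^ 2 ∧
    PowerSeries.X * qs A B * (PowerSeries.derivative K ψ) ^ 2
      = PowerSeries.C (π ^ 2) * ψ * (1 + PowerSeries.C A' * ψ + PowerSeries.C B' * ψ ^ 2)

/-- ROW bc:UQ (medium).  Uniqueness.  If `ψ1 ≠ ψ2`, let `n ≥ 2` be the order of `ψ1 - ψ2` with coefficient `e`; the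
coefficient of `X^n` of the difference of the equations: `2 n π² e` on the left, `π² e` on the right, so
`(2n - 1) π² e = 0`. -/
def UQ_stmt : Prop := ∀ (K : Type) [Field K] [CharZero K] (A B A' B' π : K) (ψ1 ψ2 : PowerSeries K), π ≠ 0 →
  PowerSeries.constantCoeff ψ1 = 0 → PowerSeries.constantCoeff ψ2 = 0 →
  PowerSeries.coeff 1 ψ1 = π ^ 2 → PowerSeries.coeff 1 ψ2 = π ^ 2 →
  PowerSeries.X * qs A B * (PowerSeries.derivative K ψ1) ^ 2
      = PowerSeries.C (π ^ 2) * ψ1 * (1 + PowerSeries.C A' * ψ1 + PowerSeries.C B' * ψ1 ^ 2) →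
  PowerSeries.X * qs A B * (PowerSeries.derivative K ψ2) ^ 2
      = PowerSeries.C (π ^ 2) * ψ2 * (1 + PowerSeries.C A' * ψ2 + PowerSeries.C B' * ψ2 ^ 2) → ψ1 = ψ2

/-- ROW bc:CR (medium; hyps `LC_stmt RE_stmt RV_stmt SR_stmt UQ_stmt`).  SR for `(N, D, κ = 1)` and, by RV, for
`(D^, N^, κ = B/B')` (`N^(0) = N_m ≠ 0`); the coefficients of `X` are `π²` (`N_0 = π`, `D_0 = 1`) and
`B D_m²/(B' N_m²) = π²` (LC).  UQ: `B D² D^² = B' N² N^²` (`N^`, `D^` = `ht m B N`, `ht m B D`).  `N, D` coprime: `N ∣ D^`,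
`D^ = c N` (degrees `≤ m`, `N_m ≠ 0`), `B^m = c N_m` (coefficients of `X^m`), so `B c² D² = B' N^²`, constant
coefficients: `B c² = B' N_m²`. -/
def CR_stmt : Prop := ∀ (K : Type) [Field K] [CharZero K] (A B A' B' π : K) (N D : K[X]) (m : ℕ), B ≠ 0 →
  B' ≠ 0 → π ≠ 0 → N.natDegree ≤ m → D.natDegree ≤ m → N.coeff m ≠ 0 → N.coeff 0 = π → D.coeff 0 = 1 →
  IsCoprime N D →
  qf A B * Mn N D ^ 2 = C (π ^ 2) * (D ^ 4 + C A' * X * N ^ 2 * D ^ 2 + C B' * X ^ 2 * N ^ 4) →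
  B' * (N.coeff m) ^ 4 = B ^ (2 * m + 1)

/-- ROW bc:CS (medium; hyps `PV_stmt SF_stmt MR_stmt`).  `e = q (N.coeff m)`.  Modulo `p`, `Mn N D` is
`(1+2m) e X^m = 0`, so `Mn N D = p M'`; MR and the ode (times `α`): `α y M' = D² u` (cancel `p`).  Modulo `p`:
`u = α M' y`, and `u² = 1 + A' e² X^p + B' e⁴ X^(2p) = f1^p`, `f1 = qf a (q B)`, `a^p = q A' e²` (`Loc.root`).  So
`(α M')² qf(A,B) = f1^p` in `k[X]`: `qf(A,B)` is squarefree and divides `f1^p`, hence `f1`; same degree 2, same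
constant coefficient: equal, `a = q A`. -/
def CS_stmt : Prop := ∀ (R k : Type) [CommRing R] [IsDomain R] [CharZero R] [Field k] (p m : ℕ) [Fact p.Prime]
  [CharP k p] (q : R →+* k), Loc p q → 5 ≤ p → p = 2 * m + 1 →
  ∀ (A B A' B' π α : R) (y g u : PowerSeries R) (N D : R[X]), Yy A B y → Ml A' B' y π g u →
    π * α = p → q B ≠ 0 → q (A ^ 2 - 4 * B) ≠ 0 → (D : PowerSeries R) * g = (N : PowerSeries R) →
    N.map q = C (q (N.coeff m)) * X ^ m → D.map q = 1 → B' * (N.coeff m) ^ 4 = B ^ p →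
    q A' * q (N.coeff m) ^ 2 = q A ^ p

/-- ROW bc:CV (medium; hyps `FA_stmt FM_stmt MR_stmt C1_stmt CR_stmt CS_stmt`).  The theorem: FA, FM, then
`ε = N.coeff m`; MR, mapped to `K = FractionRing R`, with CR (`N.coeff 0 = π` from `D g = N`), C1, CS. -/
def CV_stmt : Prop := ∀ (R k : Type) [CommRing R] [IsDomain R] [CharZero R] [Field k] (p m : ℕ) [Fact p.Prime]
  [CharP k p] (q : R →+* k), Loc p q → 5 ≤ p → p = 2 * m + 1 →
  ∀ (A B A' B' π α : R) (y w g u : PowerSeries R) (N D : (FractionRing R)[X]), Yy A B y → w * y = 1 →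
    Ml A' B' y π g u → q π = 0 → π * α = p → q B ≠ 0 → q (A ^ 2 - 4 * B) ≠ 0 → B' ≠ 0 →
    D ≠ 0 → N.natDegree ≤ m → D.natDegree ≤ m →
    (D : PowerSeries (FractionRing R)) * PowerSeries.map (algebraMap R (FractionRing R)) g
      = (N : PowerSeries (FractionRing R)) →
    ∃ ε : R, q ε ≠ 0 ∧ B' * ε ^ 4 = B ^ p ∧ q A' * q ε ^ 2 = q A ^ p ∧
      (p : R) ^ 2 ∣ PowerSeries.coeff m w - α * ε

end Pool.Agent.helper60.DB
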