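import Pool.Agent.helper60.DA.SpecV

/-!
# Rows bi:* (MP_fb2c2a_nt, parts (b), (c), split primes): the three term relation on the `s`-line

With `s^2 = (1+4x)/(1+x)`, `U = (s-1)(s+1)^3`, `V = (s+2)(s-2)^3` and `T(z) = ∑_k C(2k,k)^3 z^k`:
`4 S_p(x) = (2+s) T(U/(16V)) + (2-s) T(same with -s)` modulo `p^2`.  Both sides (made homogeneous) are
killed modulo `p^2` by the third order operator `Lam p`; a solution modulo `p` of degree `< 4p` which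
vanishes at the four cusps `s = ±1, ±2` is `0`.

RULES.  Every row is a `Prop` below; please prove `theorem Pool.Agent.helper60.DB.<ROW> (h : <OTHER>_stmt) ... :
<ROW>_stmt` in `Pool/Agent/<seat>/DB/<ROW>.lean` (import this file; only the rows named in the docstring may be
hypotheses), land it, lock note DONE, one line to helper60.  No `convert`/`congr!`/`native_decide`, no double
quotes.  Auxiliary lemmas: names beginning with the row name (`LT_aux1`, ...).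

Library: `hh p = (p-1)/2`, `St p`, `hm d f = ∑ C (f.coeff i) ((X²-1)^i (4-X²)^(d-i))`, `ST_stmt` (DA/SpecV.lean),
`Dz n`, `dc n k`, `cc n k = C(2k,k) C(n,k) C(n+k,k)`, `Sz p`, `Lop` (`Lop_add`, `Lop_sum`, `Lop_C_mul` in DK/Tele.lean),
`exists_Q` (DK/First.lean), `dc_zero_mod`, `dvd_range` (DK/Loc.lean), `clausen` (DK/Clausen.lean).
-/

namespace Pool.Agent.helper60.DB

open Polynomial Finset Pool.Agent.helper60.DK

/-! ### objects -/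

section
variable {R : Type*} [CommRing R]

/-- `(X²-1)(X²-4)` -/
noncomputable def ww : R[X] := (X ^ 2 - 1) * (X ^ 2 - 4)

/-- the derivation `(X²-1)(X²-4) d/dX` -/
noncomputable def th (f : R[X]) : R[X] := ww * derivative f

/-- coefficient of `th²` -/
noncomputable def A1 (P : R) : R[X] := C (-9 * P) * (X * (X ^ 2 - 1))

/-- coefficient of `th` -/
noncomputable def A2 (P : R) : R[X] := 8 * (X ^ 2 - 1) * ww
  + C P * (-27 * X ^ 6 + 144 * X ^ 4 - 153 * X ^ 2 + 36)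
  + C (P ^ 2) * (27 * X ^ 6 - 54 * X ^ 4 + 27 * X ^ 2)

/-- coefficient of `1` -/
noncomputable def A3 (P : R) : R[X] := 24 * X * (X ^ 2 - 3) * (X ^ 2 - 1) * ww
  + C P * (-78 * X ^ 9 + 630 * X ^ 7 - 1638 * X ^ 5 + 1590 * X ^ 3 - 504 * X)
  + C (P ^ 2) * (81 * X ^ 9 - 513 * X ^ 7 + 891 * X ^ 5 - 567 * X ^ 3 + 108 * X)
  + C (P ^ 3) * (-27 * X ^ 9 + 81 * X ^ 7 - 81 * X ^ 5 + 27 * X ^ 3)

/-- the operator -/
noncomputable def Lam (P : R) (f : R[X]) : R[X] :=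
  th (th (th f)) + A1 P * th (th f) + A2 P * th f + A3 P * f

end

/-- `(X-1)(X+1)³` -/
noncomputable def UU : ℤ[X] := (X - 1) * (X + 1) ^ 3

/-- `(X+2)(X-2)³` -/
noncomputable def VV : ℤ[X] := (X + 2) * (X - 2) ^ 3

/-- `C(2k,k)^3` -/
def c3 (k : ℕ) : ℤ := (k.centralBinom : ℤ) ^ 3

/-- `(16V)^h T(U/(16V))` -/
noncomputable def Kf (h : ℕ) : ℤ[X] :=
  ∑ k ∈ range (h + 1), C (c3 k * 16 ^ (h - k)) * (UU ^ k * VV ^ (h - k))

/-- the difference of the two sides of the three term relation -/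
noncomputable def Dl (p : ℕ) : ℤ[X] :=
  C (4 * (-1) ^ hh p * 16 ^ hh p) * DA.hm (3 * hh p) (DA.St p)
    - (X + 2) ^ p * Kf (hh p) - (2 - X) ^ p * (Kf (hh p)).comp (-X)

/-- `∑_k cc(h,k) (-U)^k V^(h-k)` -/
def Kc {R : Type*} [CommRing R] (h : ℕ) (U V : R) : R :=
  ∑ k ∈ range (h + 1), ((cc h k : ℤ) : R) * (-U) ^ k * V ^ (h - k)

/-! ### rows -/

/-- ROW bi:LL (short).  Linearity and base change. -/
def LL_stmt : Prop := ∀ (R : Type) [CommRing R] (P : R),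
  (∀ f g : R[X], Lam P (f + g) = Lam P f + Lam P g) ∧ (∀ f g : R[X], Lam P (f - g) = Lam P f - Lam P g) ∧
  (∀ (c : R) (f : R[X]), Lam P (C c * f) = C c * Lam P f) ∧
  (∀ (ι : Type) (s : Finset ι) (f : ι → R[X]), Lam P (∑ i ∈ s, f i) = ∑ i ∈ s, Lam P (f i)) ∧
  (∀ (S : Type) [CommRing S] (φ : R →+* S) (f : R[X]), (Lam P f).map φ = Lam (φ P) (f.map φ))

/-- ROW bi:LE (short).  `th (f(-X)) = -(th f)(-X)`, `A1`, `A3` are odd, `A2` is even. -/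
def LE_stmt : Prop := ∀ (R : Type) [CommRing R] (P : R) (f : R[X]),
  Lam P (f.comp (-X)) = -(Lam P f).comp (-X)

/-- ROW bi:LT (medium).  By linearity (`LL`) for `y = X^i`, `i ≤ 3h`: `τ = (X²-1)^i (4-X²)^(3h-i)`,
`th τ = λ τ`, `λ = 6X (h (X²-1) - i)`, `th² τ = (λ² + th λ) τ`, `th³ τ = (λ³ + 3 λ th λ + th² λ) τ`, and
`hm (3h+2)` of `Lop (X^i)` termwise; the common factor is `(X²-1)^(i-1) (4-X²)^(3h-i)`; what remains is
an identity of polynomials in `X`, `i`, `h` (`ring`). (Cases `i = 0, 1, 2` and `i = 3h` need the usual care with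
natural number exponents: multiply by `(X²-1)(4-X²)^3` and cancel.) -/
def LT_stmt : Prop := ∀ (h : ℕ) (y : ℤ[X]), y.natDegree ≤ 3 * h →
  Lam (2 * (h : ℤ) + 1) (DA.hm (3 * h) y) = -2 * X * (X ^ 2 - 1) * DA.hm (3 * h + 2) (Lop y)

/-- ROW bi:LF (medium, long).  `τ_k = U^k V^(h-k) (X+2)^(2h+1)`, `q = X²+2X-2`: `th τ_k = λ_k τ_k`,
`λ_k = -6 q k + (X²-1)((6h+1) X - 2)`, and (`ring`)
`(λ³ + 3 λ th λ + th² λ) + A1 (λ² + th λ) + A2 λ + A3 = 36 q (2 k³ V - (2k+1)³ U)`, so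
`Lam τ_k = 36 q (2k³ σ_k - (2k+1)³ σ_(k+1))`, `σ_k = U^k V^(h+1-k) (X+2)^(2h+1)`; the sum telescopes by
`(k+1)³ c3 (k+1) = 8 (2k+1)³ c3 k`. -/
def LF_stmt : Prop := ∀ h : ℕ, Lam (2 * (h : ℤ) + 1) ((X + 2) ^ (2 * h + 1) * Kf h)
  = -36 * (X ^ 2 + 2 * X - 2) * C ((2 * (h : ℤ) + 1) ^ 3 * c3 h) * (UU ^ (h + 1) * (X + 2) ^ (2 * h + 1))

/-- ROW bi:CU (medium; the cusp lemma).  `c ∈ {1,-1,2,-2}`: if `f = (X-c)^m g`, `m < p`, `g(c) ≠ 0`, then `m ≥ 1` and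
`Lam 0 f = (X-c)^m (m³ w'(c)³ g(c) + (X-c)(...))`, `w'(c) = ∓6, ±12 ≠ 0`, since `A2 0`, `A3 0` vanish at `c`
(`A1 0 = 0`): contradiction (`dvd_range` in DK/Loc.lean may help).  So `(X-c)^p ∣ f` for the four `c`, which are
different modulo `p ≥ 5`; degree `< 4p`. -/
def CU_stmt : Prop := ∀ (p : ℕ) [Fact p.Prime], 5 ≤ p → ∀ f : (ZMod p)[X], f.natDegree < 4 * p →
  Lam 0 f = 0 → f.eval 1 = 0 → f.eval (-1) = 0 → f.eval 2 = 0 → f.eval (-2) = 0 → f = 0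

/-- ROW bi:SC (medium).  The coefficient of `X^(3h)` in `(-1)^k D_k³`, `k < p`, modulo `p²`: `0` for `k < h`,
`(-1)^h dc(h,h)³ = (-1)^h C(2h,h)³` for `k = h`; for `k > h` it is a sum of `dc k a * dc k b * dc k c`, `a+b+c = 3h`,
`p ∣ dc k a` if `a ≥ p-k`; if at most one index is `≥ p-k` then `a+b+c ≤ k + 2(p-1-k) < 3h` (as in ST). -/
def SC_stmt : Prop := ∀ (p : ℕ) [Fact p.Prime], 5 ≤ p →
  (p : ℤ) ^ 2 ∣ (DA.St p).coeff (3 * hh p) - (-1) ^ hh p * c3 (hh p)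

/-- ROW bi:LS (short; hyp `ST_stmt` of DA/SpecV, proved).  `exists_Q`, `Lop (C (p^2) * Z) = C (p^2) * Lop Z`. -/
def LS_stmt : Prop := ∀ (p : ℕ) [Fact p.Prime], 5 ≤ p → ∃ Z : ℤ[X], Lop (DA.St p) = C ((p : ℤ) ^ 2) * Z

/-- ROW bi:DV (medium; hyp `SC_stmt`).  `h = hh p`, `p = 2h+1`.  At `±1`: `hm (3h) St` is `27^h` (`St_0 = 1`,
`Sz_coeff_zero`), `Kf(1) = 16^h (-3)^h`, `Kf(-1) = 16^h (-27)^h`: the value of `Dl` is `0`.  At `±2`: `hm (3h) St` is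
`27^h St_(3h)`, `Kf(2) = 27^h c3 h`, the other term has the factor `0^p`; `4^p = 4 * 16^h`. Degree:
`natDegree (hm (3h) _) ≤ 6h`, `natDegree Kf ≤ 4h`. -/
def DV_stmt : Prop := ∀ (p : ℕ) [Fact p.Prime], 5 ≤ p → (Dl p).natDegree < 4 * p ∧
  (p : ℤ) ^ 2 ∣ (Dl p).eval 1 ∧ (p : ℤ) ^ 2 ∣ (Dl p).eval (-1) ∧ (p : ℤ) ^ 2 ∣ (Dl p).eval 2 ∧
  (p : ℤ) ^ 2 ∣ (Dl p).eval (-2)

/-- ROW bi:ID (medium; hyps `LL LE LT LF CU LS DV`).  `Lam p (Dl p) = C (p^2) * Z`: LT with LS for the first term,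
LF (`(2h+1)³ = p³`) for the second, LE for the third.  Reduce modulo `p` (`Lam` with `P = p = 0`): CU gives
`Dl p = C p * E`; cancel `p` in `Lam p (C p * E) = C (p^2) Z`: `Lam p E = C p * Z`, and `p ∣ E(±1), E(±2)`; CU
again. -/
def ID_stmt : Prop := ∀ (p : ℕ) [Fact p.Prime], 5 ≤ p → ∃ Z : ℤ[X], Dl p = C ((p : ℤ) ^ 2) * Z

/-- ROW bi:CC (short, medium).  `C(2k,k)² = (-16)^k C(h,k) C(h+k,k)` modulo `p²` for `k ≤ h`, `p = 2h+1`: by induction,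
`(k+1)² dc h (k+1) = (h-k)(h+k+1) dc h k` (`dc_succ`), `4(h-k)(h+k+1) = p² - (2k+1)²`,
`(k+1) C(2k+2,k+1) = 2(2k+1) C(2k,k)`, and `(k+1)²` is prime to `p`. -/
def CC_stmt : Prop := ∀ (p : ℕ) [Fact p.Prime], 5 ≤ p → ∀ k : ℕ, k ≤ hh p →
  (p : ℤ) ^ 2 ∣ c3 k - (-16) ^ k * cc (hh p) k

/-- ROW bi:IE (short, medium; hyps `ID_stmt`, `CC_stmt`).  Evaluate `ID` at `s` (ring hom `aeval s`):
`hm (3h) St` at `s` is `(4-s²)^(3h) St(x)` termwise (`(s²-1)^i (4-s²)^(3h-i) = (4-s²)^(3h) x^i`), `Kf(s) = 16^h Kc(h,U(s),V(s))`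
modulo `p²` by CC.  Then cancel `16^h` modulo `p²`: `16` is prime to `p²`, so `16^h a = 1 + p² b` in `ℤ`. -/
def IE_stmt : Prop := ∀ (p : ℕ) [Fact p.Prime], 5 ≤ p → ∀ (R : Type) [CommRing R] (s x : R),
  x * (4 - s ^ 2) = s ^ 2 - 1 → ∃ z : R,
    4 * (-1) ^ hh p * (4 - s ^ 2) ^ (3 * hh p) * aeval x (DA.St p)
      = (s + 2) ^ p * Kc (hh p) ((s - 1) * (s + 1) ^ 3) ((s + 2) * (s - 2) ^ 3)
        + (2 - s) ^ p * Kc (hh p) ((-s - 1) * (-s + 1) ^ 3) ((-s + 2) * (-s - 2) ^ 3) + (p : R) ^ 2 * z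

/-- ROW bi:LG (medium; Legendre).  `R` a domain of characteristic 0, `y² = 1 + AX + BX²`, `w y = 1`.  From
`2(1+AX+BX²) w' + (A+2BX) w = 0` (differentiate `w² (1+AX+BX²) = 1`, cancel `w`):
`2(n+2) w_(n+2) + (2n+3) A w_(n+1) + 2(n+1) B w_n = 0`.  In the algebraic closure `F` of `Frac R` take `r² = B`, `r ≠ 0`,
`x` with `1 + 2x = -A/(2r)`: `w_n = r^n D_n(x)` (`D_n` satisfies `(n+2) D_(n+2) = (2n+3)(1+2x) D_(n+1) - (n+1) D_n`:
`rel_two`, `rel_one`), `x(1+x) = (A²-4B)/(16B)`, and `clausen`: `w_n² = B^n Cn(n)(x(1+x))`.  The case `B = 0`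
is not needed. -/
def LG_stmt : Prop := ∀ (R : Type) [CommRing R] [IsDomain R] [CharZero R] (A B : R) (y w : PowerSeries R), B ≠ 0 →
  y ^ 2 = 1 + PowerSeries.C A * PowerSeries.X + PowerSeries.C B * PowerSeries.X ^ 2 →
  PowerSeries.constantCoeff y = 1 → w * y = 1 → ∀ n : ℕ,
    16 ^ n * (PowerSeries.coeff n w) ^ 2
      = ∑ k ∈ range (n + 1), ((cc n k : ℤ) : R) * (A ^ 2 - 4 * B) ^ k * (16 * B) ^ (n - k)

end Pool.Agent.helper60.DB
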