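import Pool.Agent.helper60.DB.SpecC
import Pool.Agent.helper60.DB.SpecI

/-!
# Rows bf:* (MP_fb2c2a_nt, parts (b), (c)): the split primes

`R` is the ring of Witt vectors of an algebraic closure of `F_p`; it contains square roots of all integers prime
to `p`.  Curves: (b) `A = 12(1+√2)`, `B = 6`; (c), `x = -4`: `A = 6(16+7√5)`, `B = -3`; (c), `x = -1/16`:
`A = 12-3φ`, `B = 48`, `φ² = φ+1`.  The rows combine `CV` (SpecC), `LP`, `LT2` (SpecM), `IE`, `LG` (SpecI).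

RULES.  Every row is a `Prop` below; please prove `theorem Pool.Agent.helper60.DB.<ROW> (h : <OTHER>_stmt) ... :
<ROW>_stmt` in `Pool/Agent/<seat>/DB/<ROW>.lean` (import this file; only the rows named in the docstring may be
hypotheses, in this order), land it, lock note DONE, one line to helper60.  No `convert`/`congr!`/`native_decide`,
no double quotes.  Auxiliary lemmas: names beginning with the row name.
-/

namespace Pool.Agent.helper60.DB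

open Polynomial Finset Pool.Agent.helper60.DK

/-- there is a pair of multiplier `μ` over `R` -/
def RP {R : Type} [CommRing R] (y : PowerSeries R) (A' B' μ : R) : Prop :=
  ∃ g u : PowerSeries R, Ml A' B' y μ g u

/-- `Op` over the fraction field -/
def KOp {R : Type} [CommRing R] [IsDomain R] (y : PowerSeries R) (A' B' A'' B'' μ : R) (n : ℕ) (ε : ℤ) : Prop :=
  Op (PowerSeries.map (algebraMap R (FractionRing R)) y) (algebraMap R (FractionRing R) A')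
    (algebraMap R (FractionRing R) B') (algebraMap R (FractionRing R) A'') (algebraMap R (FractionRing R) B'')
    (algebraMap R (FractionRing R) μ) n ε

/-! ### the ring -/

/-- ROW bf:WT (medium).  `k = AlgebraicClosure (ZMod p)`, `R = WittVector p k`, `q = WittVector.constantCoeff`.
Mathlib: `WittVector.mem_span_p_iff_coeff_zero_eq_zero`-type lemmas (`ker`), `isUnit_of_coeff_zero_ne_zero`,
`exists_eq_pow_p_mul`, `isAdicCompleteIdealSpanP`; square roots by Hensel's lemma (`IsAdicComplete.henselianRing`,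
`X² - a`, `2` is a unit).  `CharZero`: a positive integer is `p^j n'`, `n'` a unit, `p ≠ 0` in the domain. -/
def WT_stmt : Prop := ∀ (p : ℕ) [Fact p.Prime], 5 ≤ p → ∃ (R k : Type) (_ : CommRing R) (_ : IsDomain R)
  (_ : CharZero R) (_ : Field k) (_ : CharP k p) (q : R →+* k), Loc p q ∧ ∀ a : R, q a ≠ 0 → ∃ b : R, b ^ 2 = a

/-- ROW bf:IZ (short).  `n = p n'`, `p n' = p² r`, cancel `p`, `q n' = 0`. -/
def IZ_stmt : Prop := ∀ (R k : Type) [CommRing R] [IsDomain R] [CharZero R] [Field k] (p : ℕ) [Fact p.Prime]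
  [CharP k p] (q : R →+* k), Loc p q → (∀ n : ℤ, q (n : R) = 0 ↔ (p : ℤ) ∣ n) ∧
    (∀ n : ℤ, (p : R) ^ 2 ∣ (n : R) → (p : ℤ) ^ 2 ∣ n)

/-- ROW bf:FR (short).  `t^p = t (t²)^h`, `legendreSym.eq_pow` (mapped to `k`). -/
def FR_stmt : Prop := ∀ (k : Type) [Field k] (p : ℕ) [Fact p.Prime] [CharP k p], 5 ≤ p → ∀ (n : ℤ) (t : k),
  t ^ 2 = (n : k) → t ^ p = ((legendreSym p n : ℤ) : k) * t

/-! ### the general theorem -/

/-- ROW bf:LR (short, medium; hyps `M1_stmt MA_stmt`).  Induction. -/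
def LR_stmt : Prop := ∀ (R : Type) [CommRing R] [IsDomain R] [CharZero R] (A' B' μ ν : R) (y : PowerSeries R),
  RP y A' B' μ → RP y A' B' ν → ∀ a b : ℤ, RP y A' B' (a * μ + b * ν)

/-- ROW bf:GP (medium; hyps `MU_stmt MM_stmt RG_stmt CV_stmt`).  MM and MU over `K`: `g' = map g`, odd type: `g'` is
rational; RG: degree `≤ m`; CV. -/
def GP_stmt : Prop := ∀ (R k : Type) [CommRing R] [IsDomain R] [CharZero R] [Field k] (p m : ℕ) [Fact p.Prime]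
  [CharP k p] (q : R →+* k), Loc p q → 5 ≤ p → p = 2 * m + 1 →
  ∀ (A B A' B' π α : R) (y w g u : PowerSeries R) (g' u' : PowerSeries (FractionRing R)) (e : ℤ), Yy A B y →
    w * y = 1 → Ml A' B' y π g u → q π = 0 → π * α = p → q B ≠ 0 → q (A ^ 2 - 4 * B) ≠ 0 → B' ≠ 0 →
    Ml (algebraMap R (FractionRing R) A') (algebraMap R (FractionRing R) B')
      (PowerSeries.map (algebraMap R (FractionRing R)) y) (algebraMap R (FractionRing R) π) g' u' →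
    Odd e → Ty (PowerSeries.map (algebraMap R (FractionRing R)) y) e g' u' →
    Ht (PowerSeries.X * g' ^ 2) p →
    ∃ ε : R, q ε ≠ 0 ∧ B' * ε ^ 4 = B ^ p ∧ q A' * q ε ^ 2 = q A ^ p ∧
      (p : R) ^ 2 ∣ PowerSeries.coeff m w - α * ε

/-- ROW bf:EP (short, medium).  `ε⁴ = B^(2m)`, so `ε² = δ B^m`, `δ = ±1`; modulo `p`, `B^m = (B/p)` (`legendreSym.eq_pow`)
and `η = δ (B/p)` in `k`, hence in `ℤ`. -/
def EP_stmt : Prop := ∀ (R k : Type) [CommRing R] [IsDomain R] [CharZero R] [Field k] (p m : ℕ) [Fact p.Prime]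
  [CharP k p] (q : R →+* k), Loc p q → 5 ≤ p → p = 2 * m + 1 → ∀ (ε : R) (B η : ℤ), ¬ (p : ℤ) ∣ B → η ^ 2 = 1 →
    (B : R) * ε ^ 4 = (B : R) ^ p → q ε ^ 2 = (η : k) → ε ^ 2 = (η : R) * (legendreSym p B : ℤ) * (B : R) ^ m

/-- ROW bf:KC (short, medium; hyps `GP_stmt EP_stmt`).  `q A' q ε² = η q A'`, cancel; `w_m = α ε + p² z`, square. -/
def KC_stmt : Prop := ∀ (R k : Type) [CommRing R] [IsDomain R] [CharZero R] [Field k] (p m : ℕ) [Fact p.Prime]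
  [CharP k p] (q : R →+* k), Loc p q → 5 ≤ p → p = 2 * m + 1 →
  ∀ (A A' π α : R) (B η : ℤ) (y w : PowerSeries R) (g' u' : PowerSeries (FractionRing R)) (e : ℤ),
    Yy A (B : R) y → w * y = 1 → RP y A' (B : R) π → q π = 0 → π * α = p → ¬ (p : ℤ) ∣ B →
    q (A ^ 2 - 4 * B) ≠ 0 →
    Ml (algebraMap R (FractionRing R) A') (algebraMap R (FractionRing R) (B : R))
      (PowerSeries.map (algebraMap R (FractionRing R)) y) (algebraMap R (FractionRing R) π) g' u' →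
    Odd e → Ty (PowerSeries.map (algebraMap R (FractionRing R)) y) e g' u' →
    Ht (PowerSeries.X * g' ^ 2) p → η ^ 2 = 1 → q A ^ p = (η : k) * q A' → q A' ≠ 0 →
    ∃ z : R, PowerSeries.coeff m w ^ 2
      = (η : R) * (legendreSym p B : ℤ) * (B : R) ^ m * α ^ 2 + (p : R) ^ 2 * z

/-- ROW bf:PC (medium; hyps `M1_stmt MM_stmt LP_stmt LR_stmt KC_stmt`).  Principal: `π = a + b β`, `α = a - b β`, `η = 1`,
`A' = A`; LP over `K = FractionRing R` (constants mapped), LR with `μ = 1`, `ν = β`. -/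
def PC_stmt : Prop := ∀ (R k : Type) [CommRing R] [IsDomain R] [CharZero R] [Field k] (p m : ℕ) [Fact p.Prime]
  [CharP k p] (q : R →+* k), Loc p q → 5 ≤ p → p = 2 * m + 1 →
  ∀ (A β : R) (B : ℤ) (N : ℕ) (e a b : ℤ) (y w : PowerSeries R), Yy A (B : R) y → w * y = 1 → ¬ (p : ℤ) ∣ B →
    q (A ^ 2 - 4 * B) ≠ 0 → 0 < N → β ^ 2 = -(N : R) → RP y A (B : R) β →
    KOp y A (B : R) A (B : R) β N e → (p : ℤ) = a ^ 2 + N * b ^ 2 → Odd (a + e * b) →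
    q (a + b * β) = 0 → q A ^ p = q A → q A ≠ 0 →
    ∃ z : R, PowerSeries.coeff m w ^ 2
      = (legendreSym p B : ℤ) * (B : R) ^ m * (a - b * β) ^ 2 + (p : R) ^ 2 * z

/-- ROW bf:TW (medium; hyps `MM_stmt LT2_stmt LR_stmt KC_stmt`).  Twisted: `π = a μ + b ν`; LT2 over `K`. -/
def TW_stmt : Prop := ∀ (R k : Type) [CommRing R] [IsDomain R] [CharZero R] [Field k] (p m : ℕ) [Fact p.Prime]
  [CharP k p] (q : R →+* k), Loc p q → 5 ≤ p → p = 2 * m + 1 →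
  ∀ (A A' β μ ν μ' α : R) (B η : ℤ) (m1 n1 : ℕ) (e e' e'' eb σ τ a b : ℤ) (y w : PowerSeries R),
    Yy A (B : R) y → w * y = 1 → ¬ (p : ℤ) ∣ B → q (A ^ 2 - 4 * B) ≠ 0 → q (A' ^ 2 - 4 * B) ≠ 0 → 0 < m1 → 0 < n1 →
    β ^ 2 = -((m1 * n1 : ℕ) : R) → KOp y A (B : R) A (B : R) β (m1 * n1) eb →
    KOp y A (B : R) A' (B : R) μ m1 e → KOp y A (B : R) A' (B : R) ν n1 e' →
    KOp y A' (B : R) A (B : R) μ' m1 e'' → σ ^ 2 = 1 → τ ^ 2 = 1 → μ' * μ = σ * m1 → μ' * ν = τ * β →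
    RP y A' (B : R) μ → RP y A' (B : R) ν → (p : ℤ) = m1 * a ^ 2 + n1 * b ^ 2 → Odd (e * a + e' * b) →
    (a * μ + b * ν) * α = p → q (a * μ + b * ν) = 0 → η ^ 2 = 1 → q A ^ p = (η : k) * q A' → q A' ≠ 0 →
    ∃ z : R, PowerSeries.coeff m w ^ 2
      = (η : R) * (legendreSym p B : ℤ) * (B : R) ^ m * α ^ 2 + (p : R) ^ 2 * z

/-- ROW bf:TT (medium; hyps `IE_stmt LG_stmt`).  `m = hh p`.  LG and `(A²-4B) V = -16 B U`:
`B^m Kc m U V = V^m w_m²` (multiply by `16^m` and cancel it).  Multiply IE by `B^m`;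
`(s+2)^p V^m = (-1)^m (s+2) (4-s²)^(3m)` and `(2-s)^p V(-s)^m = (-1)^m (2-s) (4-s²)^(3m)` (`p = 2m+1`); cancel the unit
`(-1)^m (4-s²)^(3m)`. -/
def TT_stmt : Prop := ∀ (p : ℕ) [Fact p.Prime], 5 ≤ p → ∀ (R : Type) [CommRing R] [IsDomain R] [CharZero R]
  (s x A1 A2 B : R) (y1 w1 y2 w2 : PowerSeries R), x * (4 - s ^ 2) = s ^ 2 - 1 → IsUnit (4 - s ^ 2) → B ≠ 0 →
  (A1 ^ 2 - 4 * B) * ((s + 2) * (s - 2) ^ 3) = -16 * B * ((s - 1) * (s + 1) ^ 3) →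
  (A2 ^ 2 - 4 * B) * ((-s + 2) * (-s - 2) ^ 3) = -16 * B * ((-s - 1) * (-s + 1) ^ 3) →
  Yy A1 B y1 → w1 * y1 = 1 → Yy A2 B y2 → w2 * y2 = 1 →
  ∃ z : R, 4 * B ^ hh p * aeval x (DA.St p) = (2 + s) * PowerSeries.coeff (hh p) w1 ^ 2
    + (2 - s) * PowerSeries.coeff (hh p) w2 ^ 2 + (p : R) ^ 2 * z

/-! ### arithmetic of the primes -/

/-- ROW bf:L2 (medium).  `a² + 6b²` odd is `±1 (mod 8)`, `2a² + 3b²` odd is `3` or `5`: `legendreSym.at_two`,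
`ZMod.χ₈`; `a² = -6 b²` resp. `(2a)² = -6 b²` modulo `p` with `b` prime to `p`. -/
def L2_stmt : Prop := ∀ (p : ℕ) [Fact p.Prime], 5 ≤ p → ∀ a b : ℤ,
  ((p : ℤ) = a ^ 2 + 6 * b ^ 2 → legendreSym p 2 = 1 ∧ legendreSym p (-6) = 1) ∧
  ((p : ℤ) = 2 * a ^ 2 + 3 * b ^ 2 → legendreSym p 2 = -1 ∧ legendreSym p (-6) = 1)

/-- ROW bf:L5 (medium).  Quadratic reciprocity: `(5/p) = (p/5)`, `(-3/p) = (p/3)`; `p ≡ a² (mod 5)`, `p ≡ a² (mod 3)`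
resp. `p ≡ 3a² (mod 5)`, `p ≡ 2b² (mod 3)`. `11` is not represented. -/
def L5_stmt : Prop := ∀ (p : ℕ) [Fact p.Prime], 7 ≤ p → ∀ a b : ℤ,
  ((p : ℤ) = a ^ 2 + 15 * b ^ 2 → legendreSym p 5 = 1 ∧ legendreSym p (-3) = 1 ∧ p ≠ 11) ∧
  ((p : ℤ) = 3 * a ^ 2 + 5 * b ^ 2 → legendreSym p 5 = -1 ∧ legendreSym p (-3) = -1 ∧ p ≠ 11)

/-- ROW bf:EX (medium, long).  `r² ≡ -15 (mod p)`; Thue (pigeonhole with `x, y ∈ [0, √p)`): `x² + 15 y² = k p` with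
`0 < x² < p`, `0 < y² < p`, so `1 ≤ k ≤ 15`.  Descent for each `k` as convenient; or with the box
`|x| < √(c p)`, `|y| < √(p/c)`, `c² ≤ 15`: `k ≤ 7`.  `k = 1`: done. `k = 3`: `x = 3x'`, `p = 3x'² + 5y²`; `k = 5`: `x = 5x'`,
`p = 5x'² + 3y²`.  `k = 4`: `x, y` even (mod 4, 8), divide, or `x, y` odd: `x² + 15y² ≡ 0 (mod 16)` impossible for `4p`.
`k = 2, 6`: mod 8. `k = 7` : `-15` is not a square mod 7.  (`k = 8`: mod 16, ...) -/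
def EX_stmt : Prop := ∀ (p : ℕ) [Fact p.Prime], 7 ≤ p → legendreSym p (-15) = 1 →
  (∃ a b : ℤ, (p : ℤ) = a ^ 2 + 15 * b ^ 2) ∨ (∃ a b : ℤ, (p : ℤ) = 3 * a ^ 2 + 5 * b ^ 2)

/-! ### (b): `s = √2`, `A = 12(1+√2)`, `B = 6` -/

/-- ROW bf:BD (short, medium).  Identities.  OI: compare coefficients of `X` (`s ^ 2 = 2`, `t ^ 2 = -3`). -/
def BD_stmt : Prop := ∀ (R : Type) [CommRing R] (s t : R), s ^ 2 = 2 → t ^ 2 = -3 →
  (2 + s) ^ 2 * (12 * (1 - s)) = -2 * (12 * (1 + s)) ∧ (2 + s) ^ 4 * 6 = (12 * (1 + s)) ^ 2 - 4 * 6 ∧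
  (2 - s) ^ 2 * (12 * (1 + s)) = -2 * (12 * (1 - s)) ∧ (2 - s) ^ 4 * 6 = (12 * (1 - s)) ^ 2 - 4 * 6 ∧
  OI (12 * (1 + s)) 6 (12 * (1 - s)) 6 (t * (1 + s)) (C (t * (1 + s)) - C (s * t) * X)
    (1 - C (3 * (2 + s)) * X) (1 + C (6 * s) * X + C 6 * X ^ 2)

/-- ROW bf:BE (medium; hyps `M1_stmt MO_stmt M2_stmt MM_stmt OO_stmt O2_stmt OC_stmt BD_stmt`).  Over `K` and over `R`; the
endomorphism is the isogeny of degree 3 followed by the one of degree 2, `(2-s) t (1+s) = s t`. -/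
def BE_stmt : Prop := ∀ (R : Type) [CommRing R] [IsDomain R] [CharZero R] (s t : R) (y : PowerSeries R),
  s ^ 2 = 2 → t ^ 2 = -3 → Yy (12 * (1 + s)) 6 y →
  KOp y (12 * (1 + s)) 6 (12 * (1 + s)) 6 (s * t) 6 0 ∧
  KOp y (12 * (1 + s)) 6 (12 * (1 - s)) 6 (2 + s) 2 0 ∧
  KOp y (12 * (1 + s)) 6 (12 * (1 - s)) 6 (t * (1 + s)) 3 1 ∧
  KOp y (12 * (1 - s)) 6 (12 * (1 + s)) 6 (2 - s) 2 0 ∧
  RP y (12 * (1 + s)) 6 (s * t) ∧ RP y (12 * (1 - s)) 6 (2 + s) ∧ RP y (12 * (1 - s)) 6 (t * (1 + s))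

/-- ROW bf:BH (medium; hyps `IZ_stmt PC_stmt BE_stmt`).  `N = 6`, `e = 0`, `a` is odd; units: `A A(-s) = -144`,
`(A² - 24)(A(-s)² - 24) = 576`; `q A ^ p = 12(1 + q s ^ p)` (`add_pow_char`, `12^p = 12` in `k`). -/
def BH_stmt : Prop := ∀ (R k : Type) [CommRing R] [IsDomain R] [CharZero R] [Field k] (p m : ℕ) [Fact p.Prime]
  [CharP k p] (q : R →+* k), Loc p q → 5 ≤ p → p = 2 * m + 1 → ∀ (s t : R) (a b : ℤ) (y w : PowerSeries R),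
    s ^ 2 = 2 → t ^ 2 = -3 → q s ^ p = q s → Yy (12 * (1 + s)) 6 y → w * y = 1 →
    (p : ℤ) = a ^ 2 + 6 * b ^ 2 → q (a + b * (s * t)) = 0 →
    ∃ z : R, PowerSeries.coeff m w ^ 2
      = (legendreSym p 6 : ℤ) * 6 ^ m * (a - b * (s * t)) ^ 2 + (p : R) ^ 2 * z

/-- ROW bf:BG (medium; hyps `IZ_stmt TW_stmt BE_stmt`).  `μ = 2+s`, `ν = t(1+s)`, `μ' = 2-s`, `m1 = 2`, `n1 = 3`, `σ = τ = 1`,
`η = 1`, `b` odd; `a μ + b ν = (1+s)(s a + t b)`, `α = (s-1)(s a - t b)`; `q A ^ p = 12(1 - q s) = q A'`. -/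
def BG_stmt : Prop := ∀ (R k : Type) [CommRing R] [IsDomain R] [CharZero R] [Field k] (p m : ℕ) [Fact p.Prime]
  [CharP k p] (q : R →+* k), Loc p q → 5 ≤ p → p = 2 * m + 1 → ∀ (s t : R) (a b : ℤ) (y w : PowerSeries R),
    s ^ 2 = 2 → t ^ 2 = -3 → q s ^ p = -q s → Yy (12 * (1 + s)) 6 y → w * y = 1 →
    (p : ℤ) = 2 * a ^ 2 + 3 * b ^ 2 → q (s * a + t * b) = 0 →
    ∃ z : R, PowerSeries.coeff m w ^ 2
      = (legendreSym p 6 : ℤ) * 6 ^ m * ((s - 1) * (s * a - t * b)) ^ 2 + (p : R) ^ 2 * z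

/-- ROW bf:BP (medium; hyps `IZ_stmt YE_stmt TT_stmt BH_stmt`).  `β = s t`; `(a + bβ)(a - bβ) = p`, so (replace `b` by `-b`)
`q (a + bβ) = 0`.  BH for `(s, t)` and `(-s, -t)`, TT with this `s`; cancel `4 * 6^m`:
`St(x) ≡ (6/p) (a - bβ)²`, and `(a - bβ)² = 4a² - 2p - (a + bβ)²`, `p ∣ a + bβ`. -/
def BP_stmt : Prop := ∀ (R k : Type) [CommRing R] [IsDomain R] [CharZero R] [Field k] (p : ℕ) [Fact p.Prime]
  [CharP k p] (q : R →+* k), Loc p q → 5 ≤ p → ∀ (s t x : R) (a b : ℤ),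
    s ^ 2 = 2 → t ^ 2 = -3 → q s ^ p = q s → 2 * x = 1 → (p : ℤ) = a ^ 2 + 6 * b ^ 2 →
    ∃ z : R, aeval x (DA.St p) = (legendreSym p 6 : ℤ) * (4 * (a : R) ^ 2 - 2 * p) + (p : R) ^ 2 * z

/-- ROW bf:BQ (medium; hyps `IZ_stmt YE_stmt TT_stmt BG_stmt`).  `γ = s a - t b`, `γ' = s a + t b`, `γ γ' = p`; (replace `b` by
`-b`) `q γ' = 0`.  BG for `(s, t)` and `(-s, -t)`; `(2+s)(s-1)² + (2-s)(s+1)² = 4`; `γ² = 8a² - 2p - γ'²`. -/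
def BQ_stmt : Prop := ∀ (R k : Type) [CommRing R] [IsDomain R] [CharZero R] [Field k] (p : ℕ) [Fact p.Prime]
  [CharP k p] (q : R →+* k), Loc p q → 5 ≤ p → ∀ (s t x : R) (a b : ℤ),
    s ^ 2 = 2 → t ^ 2 = -3 → q s ^ p = -q s → 2 * x = 1 → (p : ℤ) = 2 * a ^ 2 + 3 * b ^ 2 →
    ∃ z : R, aeval x (DA.St p) = (legendreSym p 6 : ℤ) * (8 * (a : R) ^ 2 - 2 * p) + (p : R) ^ 2 * z

/-- ROW bf:BZ (medium; hyps `WT_stmt IZ_stmt FR_stmt L2_stmt BP_stmt BQ_stmt`).  In `R` of WT: `s`, `t` square roots of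
`2`, `-3`, `x` the inverse of `2`; `t0 - x` is divisible by `p²`, hence also `St(t0) - St(x)`; IZ. -/
def BZ_stmt : Prop := ∀ (p : ℕ) [Fact p.Prime], 5 ≤ p → ∀ t a b : ℤ, (p : ℤ) ^ 2 ∣ 2 * t - 1 →
  ((p : ℤ) = a ^ 2 + 6 * b ^ 2 →
    (p : ℤ) ^ 2 ∣ (DA.St p).eval t - legendreSym p 6 * (4 * a ^ 2 - 2 * p)) ∧
  ((p : ℤ) = 2 * a ^ 2 + 3 * b ^ 2 →
    (p : ℤ) ^ 2 ∣ (DA.St p).eval t - legendreSym p 6 * (8 * a ^ 2 - 2 * p))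

/-! ### (c), `x = -4`: `s = u = √5`, `A = 6(16+7u)`, `B = -3` -/

/-- ROW bf:CD (medium).  Identities: compare coefficients of `X` (`u ^ 2 = 5`, `v ^ 2 = -3`). -/
def CD_stmt : Prop := ∀ (R : Type) [CommRing R] (u v : R), u ^ 2 = 5 → v ^ 2 = -3 →
  OI (6 * (16 + 7 * u)) (-3) (-6 * (16 - 7 * u)) (-3) (v * (2 + u)) (C (v * (2 + u)) - C v * X)
    (1 + C (3 * (2 + u)) * X) (1 - C (6 * u) * X - C 3 * X ^ 2) ∧
  OI (6 * (16 + 7 * u)) (-3) (-6 * (16 - 7 * u)) (-3) (5 + 2 * u)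
    (C (5 + 2 * u) - C (6 * (5 + 2 * u)) * X + C 3 * X ^ 2)
    (1 + C (6 * (5 + 2 * u)) * X + C (3 * (5 + 2 * u)) * X ^ 2)
    (1 - C (48 + 12 * u) * X - C (210 + 96 * u) * X ^ 2 + C (144 + 36 * u) * X ^ 3 + C 9 * X ^ 4) ∧
  OI (-6 * (16 - 7 * u)) (-3) (6 * (16 + 7 * u)) (-3) (v * (2 - u)) (C (v * (2 - u)) + C v * X)
    (1 - C (3 * (2 - u)) * X) (1 - C (6 * u) * X - C 3 * X ^ 2) ∧
  OI (-6 * (16 - 7 * u)) (-3) (6 * (16 + 7 * u)) (-3) (5 - 2 * u)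
    (C (5 - 2 * u) + C (6 * (5 - 2 * u)) * X + C 3 * X ^ 2)
    (1 - C (6 * (5 - 2 * u)) * X + C (3 * (5 - 2 * u)) * X ^ 2)
    (1 + C (48 - 12 * u) * X - C (210 - 96 * u) * X ^ 2 - C (144 - 36 * u) * X ^ 3 + C 9 * X ^ 4)

/-- ROW bf:CE (medium; hyps `M1_stmt MO_stmt MM_stmt OO_stmt OC_stmt CD_stmt`).  The endomorphism is the isogeny of
degree 3 followed by the last one, `(5-2u) v (2+u) = u v`. -/
def CE_stmt : Prop := ∀ (R : Type) [CommRing R] [IsDomain R] [CharZero R] (u v : R) (y : PowerSeries R),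
  u ^ 2 = 5 → v ^ 2 = -3 → Yy (6 * (16 + 7 * u)) (-3) y →
  KOp y (6 * (16 + 7 * u)) (-3) (6 * (16 + 7 * u)) (-3) (u * v) 15 1 ∧
  KOp y (6 * (16 + 7 * u)) (-3) (-6 * (16 - 7 * u)) (-3) (v * (2 + u)) 3 1 ∧
  KOp y (6 * (16 + 7 * u)) (-3) (-6 * (16 - 7 * u)) (-3) (5 + 2 * u) 5 1 ∧
  KOp y (-6 * (16 - 7 * u)) (-3) (6 * (16 + 7 * u)) (-3) (v * (2 - u)) 3 1 ∧
  RP y (6 * (16 + 7 * u)) (-3) (u * v) ∧ RP y (-6 * (16 - 7 * u)) (-3) (v * (2 + u)) ∧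
  RP y (-6 * (16 - 7 * u)) (-3) (5 + 2 * u)

/-- ROW bf:CH (medium; hyps `IZ_stmt PC_stmt CE_stmt`).  `N = 15`, `e = 1`, `a + b` odd; units: `A A(-u) = 396`,
`(A² + 12)(A(-u)² + 12) = 589824 = 2^16 * 9`. -/
def CH_stmt : Prop := ∀ (R k : Type) [CommRing R] [IsDomain R] [CharZero R] [Field k] (p m : ℕ) [Fact p.Prime]
  [CharP k p] (q : R →+* k), Loc p q → 7 ≤ p → p ≠ 11 → p = 2 * m + 1 →
  ∀ (u v : R) (a b : ℤ) (y w : PowerSeries R),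
    u ^ 2 = 5 → v ^ 2 = -3 → q u ^ p = q u → Yy (6 * (16 + 7 * u)) (-3) y → w * y = 1 →
    (p : ℤ) = a ^ 2 + 15 * b ^ 2 → q (a + b * (u * v)) = 0 →
    ∃ z : R, PowerSeries.coeff m w ^ 2
      = (legendreSym p (-3) : ℤ) * (-3) ^ m * (a - b * (u * v)) ^ 2 + (p : R) ^ 2 * z

/-- ROW bf:CG (medium; hyps `IZ_stmt TW_stmt CE_stmt`).  `μ = v(2+u)`, `ν = 5+2u`, `μ' = v(2-u)`, `m1 = 3`, `n1 = 5`, `σ = 1`,
`τ = -1`, `β = u v`, `η = -1`, `a + b` odd; `a μ + b ν = (2+u)(v a + u b)`, `α = (u-2)(u b - v a)`;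
`q A ^ p = 6(16 - 7 q u) = -q A'`. -/
def CG_stmt : Prop := ∀ (R k : Type) [CommRing R] [IsDomain R] [CharZero R] [Field k] (p m : ℕ) [Fact p.Prime]
  [CharP k p] (q : R →+* k), Loc p q → 7 ≤ p → p ≠ 11 → p = 2 * m + 1 →
  ∀ (u v : R) (a b : ℤ) (y w : PowerSeries R),
    u ^ 2 = 5 → v ^ 2 = -3 → q u ^ p = -q u → Yy (6 * (16 + 7 * u)) (-3) y → w * y = 1 →
    (p : ℤ) = 3 * a ^ 2 + 5 * b ^ 2 → q (v * a + u * b) = 0 →
    ∃ z : R, PowerSeries.coeff m w ^ 2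
      = -(legendreSym p (-3) : ℤ) * (-3) ^ m * ((u - 2) * (u * b - v * a)) ^ 2 + (p : R) ^ 2 * z

/-- ROW bf:CP (medium; hyps `IZ_stmt YE_stmt TT_stmt CH_stmt`).  As BP with `s = u`, `β = u v`. -/
def CP_stmt : Prop := ∀ (R k : Type) [CommRing R] [IsDomain R] [CharZero R] [Field k] (p : ℕ) [Fact p.Prime]
  [CharP k p] (q : R →+* k), Loc p q → 7 ≤ p → p ≠ 11 → ∀ (u v : R) (a b : ℤ),
    u ^ 2 = 5 → v ^ 2 = -3 → q u ^ p = q u → (p : ℤ) = a ^ 2 + 15 * b ^ 2 →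
    ∃ z : R, aeval (-4 : R) (DA.St p)
      = (legendreSym p (-3) : ℤ) * (4 * (a : R) ^ 2 - 2 * p) + (p : R) ^ 2 * z

/-- ROW bf:CQ (medium; hyps `IZ_stmt YE_stmt TT_stmt CG_stmt`).  `γ = u b - v a`, `γ' = u b + v a`, `γ γ' = p`;
CG for `(u, v)` and `(-u, -v)`; `(2+u)(u-2)² + (2-u)(u+2)² = -4`, so `St(-4) ≡ (-3/p) γ²`, and
`γ² = 20 b² - 2p - γ'²`, `20 b² = 4p - 12a²`. -/
def CQ_stmt : Prop := ∀ (R k : Type) [CommRing R] [IsDomain R] [CharZero R] [Field k] (p : ℕ) [Fact p.Prime]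
  [CharP k p] (q : R →+* k), Loc p q → 7 ≤ p → p ≠ 11 → ∀ (u v : R) (a b : ℤ),
    u ^ 2 = 5 → v ^ 2 = -3 → q u ^ p = -q u → (p : ℤ) = 3 * a ^ 2 + 5 * b ^ 2 →
    ∃ z : R, aeval (-4 : R) (DA.St p)
      = (legendreSym p (-3) : ℤ) * (2 * (p : R) - 12 * (a : R) ^ 2) + (p : R) ^ 2 * z

/-! ### (c), `x = -1/16`: `φ² = φ+1`, `u = 2φ-1`, `s = 2u/5`, `A = 12-3φ`, `B = 48` -/

/-- ROW bf:ND (medium).  Identities: compare coefficients of `X` (`f ^ 2 = f + 1`, `v ^ 2 = -3`). -/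
def ND_stmt : Prop := ∀ (R : Type) [CommRing R] (f v : R), f ^ 2 = f + 1 → v ^ 2 = -3 →
  OI (12 - 3 * f) 48 (-(9 + 3 * f)) 48 (v * f) (C (v * f) - C (4 * v) * X)
    (1 - C (12 * f) * X) (1 + C 12 * X + C 48 * X ^ 2) ∧
  OI (12 - 3 * f) 48 (-(9 + 3 * f)) 48 (2 + f) (C (2 + f) + C (12 * (2 + f)) * X + C 48 * X ^ 2)
    (1 + C (12 * (2 + f)) * X + C (48 * (2 + f)) * X ^ 2)
    (1 + C (12 * (1 - f)) * X + C (48 * (3 - f)) * X ^ 2 + C (576 * (1 - f)) * X ^ 3 + C 2304 * X ^ 4) ∧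
  OI (-(9 + 3 * f)) 48 (12 - 3 * f) 48 (v * (1 - f)) (C (v * (1 - f)) + C (4 * v) * X)
    (1 + C (12 * (1 - f)) * X) (1 - C 12 * X + C 48 * X ^ 2) ∧
  OI (-(9 + 3 * f)) 48 (12 - 3 * f) 48 (3 - f) (C (3 - f) - C (12 * (3 - f)) * X + C 48 * X ^ 2)
    (1 - C (12 * (3 - f)) * X + C (48 * (3 - f)) * X ^ 2)
    (1 - C (12 * f) * X + C (48 * (2 + f)) * X ^ 2 - C (576 * f) * X ^ 3 + C 2304 * X ^ 4)

/-- ROW bf:NE (medium; hyps `M1_stmt MO_stmt MM_stmt OO_stmt OC_stmt ND_stmt`).  The endomorphism is the isogeny of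
degree 3 followed by the last one, `(3-f) v f = (2f-1) v`. -/
def NE_stmt : Prop := ∀ (R : Type) [CommRing R] [IsDomain R] [CharZero R] (f v : R) (y : PowerSeries R),
  f ^ 2 = f + 1 → v ^ 2 = -3 → Yy (12 - 3 * f) 48 y →
  KOp y (12 - 3 * f) 48 (12 - 3 * f) 48 ((2 * f - 1) * v) 15 1 ∧
  KOp y (12 - 3 * f) 48 (-(9 + 3 * f)) 48 (v * f) 3 1 ∧
  KOp y (12 - 3 * f) 48 (-(9 + 3 * f)) 48 (2 + f) 5 1 ∧
  KOp y (-(9 + 3 * f)) 48 (12 - 3 * f) 48 (v * (1 - f)) 3 1 ∧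
  RP y (12 - 3 * f) 48 ((2 * f - 1) * v) ∧ RP y (-(9 + 3 * f)) 48 (v * f) ∧
  RP y (-(9 + 3 * f)) 48 (2 + f)

/-- ROW bf:NH (medium; hyps `IZ_stmt PC_stmt NE_stmt`).  `N = 15`, `e = 1`, `a + b` odd; units: `A (9+3f) = 99`,
`(A² - 192)((9+3f)² - 192) = 9`. -/
def NH_stmt : Prop := ∀ (R k : Type) [CommRing R] [IsDomain R] [CharZero R] [Field k] (p m : ℕ) [Fact p.Prime]
  [CharP k p] (q : R →+* k), Loc p q → 7 ≤ p → p ≠ 11 → p = 2 * m + 1 →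
  ∀ (f v : R) (a b : ℤ) (y w : PowerSeries R),
    f ^ 2 = f + 1 → v ^ 2 = -3 → q f ^ p = q f → Yy (12 - 3 * f) 48 y → w * y = 1 →
    (p : ℤ) = a ^ 2 + 15 * b ^ 2 → q (a + b * ((2 * f - 1) * v)) = 0 →
    ∃ z : R, PowerSeries.coeff m w ^ 2
      = (legendreSym p 48 : ℤ) * 48 ^ m * (a - b * ((2 * f - 1) * v)) ^ 2 + (p : R) ^ 2 * z

/-- ROW bf:NG (medium; hyps `IZ_stmt TW_stmt NE_stmt`).  `μ = v f`, `ν = 2+f = (2f-1) f`, `μ' = v(1-f)`, `m1 = 3`, `n1 = 5`,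
`σ = 1`, `τ = -1`, `β = (2f-1) v`, `η = -1`, `a + b` odd; `a μ + b ν = f (v a + (2f-1) b)`, `α = (f-1)((2f-1) b - v a)`;
`q A ^ p = 12 - 3(1 - q f) = -q A'`. -/
def NG_stmt : Prop := ∀ (R k : Type) [CommRing R] [IsDomain R] [CharZero R] [Field k] (p m : ℕ) [Fact p.Prime]
  [CharP k p] (q : R →+* k), Loc p q → 7 ≤ p → p ≠ 11 → p = 2 * m + 1 →
  ∀ (f v : R) (a b : ℤ) (y w : PowerSeries R),
    f ^ 2 = f + 1 → v ^ 2 = -3 → q f ^ p = 1 - q f → Yy (12 - 3 * f) 48 y → w * y = 1 →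
    (p : ℤ) = 3 * a ^ 2 + 5 * b ^ 2 → q (v * a + (2 * f - 1) * b) = 0 →
    ∃ z : R, PowerSeries.coeff m w ^ 2
      = -(legendreSym p 48 : ℤ) * 48 ^ m * ((f - 1) * ((2 * f - 1) * b - v * a)) ^ 2 + (p : R) ^ 2 * z

/-- ROW bf:NP (medium; hyps `IZ_stmt YE_stmt TT_stmt NH_stmt`).  As BP: `s` with `5 s = 2(2f-1)`, so `5 s² = 4`;
`(f, v)` and `(1-f, -v)`, the same `β = (2f-1) v`. -/
def NP_stmt : Prop := ∀ (R k : Type) [CommRing R] [IsDomain R] [CharZero R] [Field k] (p : ℕ) [Fact p.Prime]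
  [CharP k p] (q : R →+* k), Loc p q → 7 ≤ p → p ≠ 11 → ∀ (f v x : R) (a b : ℤ),
    f ^ 2 = f + 1 → v ^ 2 = -3 → q f ^ p = q f → 16 * x = -1 → (p : ℤ) = a ^ 2 + 15 * b ^ 2 →
    ∃ z : R, aeval x (DA.St p)
      = (legendreSym p 48 : ℤ) * (4 * (a : R) ^ 2 - 2 * p) + (p : R) ^ 2 * z

/-- ROW bf:NQ (medium; hyps `IZ_stmt YE_stmt TT_stmt NG_stmt`).  `u = 2f-1`, `s = 2u/5`, `γ = u b - v a`;
`(2+s)(f-1)² + (2-s) f² = 4`, so `St(x) ≡ -(48/p) γ²`, `γ² ≡ 20b² - 2p = 2p - 12a²`. -/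
def NQ_stmt : Prop := ∀ (R k : Type) [CommRing R] [IsDomain R] [CharZero R] [Field k] (p : ℕ) [Fact p.Prime]
  [CharP k p] (q : R →+* k), Loc p q → 7 ≤ p → p ≠ 11 → ∀ (f v x : R) (a b : ℤ),
    f ^ 2 = f + 1 → v ^ 2 = -3 → q f ^ p = 1 - q f → 16 * x = -1 → (p : ℤ) = 3 * a ^ 2 + 5 * b ^ 2 →
    ∃ z : R, aeval x (DA.St p)
      = (legendreSym p 48 : ℤ) * (12 * (a : R) ^ 2 - 2 * p) + (p : R) ^ 2 * z

/-- ROW bf:CZ (medium; hyps `WT_stmt IZ_stmt FR_stmt L5_stmt CP_stmt CQ_stmt NP_stmt NQ_stmt`).  In `R` of WT: `u`, `v` square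
roots of `5`, `-3`, `f = (1+u)/2`, `x` the inverse of `-16`; `(48/p) = (3/p)`. -/
def CZ_stmt : Prop := ∀ (p : ℕ) [Fact p.Prime], 7 ≤ p → ∀ t a b : ℤ, (p : ℤ) ^ 2 ∣ 16 * t + 1 →
  ((p : ℤ) = a ^ 2 + 15 * b ^ 2 →
    (p : ℤ) ^ 2 ∣ (DA.St p).eval (-4) - (4 * a ^ 2 - 2 * p) ∧
    (p : ℤ) ^ 2 ∣ (DA.St p).eval t - legendreSym p 3 * (4 * a ^ 2 - 2 * p)) ∧
  ((p : ℤ) = 3 * a ^ 2 + 5 * b ^ 2 →
    (p : ℤ) ^ 2 ∣ (DA.St p).eval (-4) - (12 * a ^ 2 - 2 * p) ∧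
    (p : ℤ) ^ 2 ∣ (DA.St p).eval t - legendreSym p 3 * (12 * a ^ 2 - 2 * p))

end Pool.Agent.helper60.DB
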